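import Pool.Agent.Lib.MP_d439b2_co.X3.H3B.Be
import Pool.Agent.Lib.MP_d439b2_co.X3.H3N.All
import Pool.Agent.Lib.MP_d439b2_co.Rep.X3Asm

/-!
# MP_d439b2_co, X3/H3B: the pair of `K3:0,01,12` and `co(P_3 + 4 P_2)`
-/

set_option autoImplicit false

namespace Pool.Agent.MPd439b2.X3.H3B

open Pool.Agent.MPd439b2

/-- **the pair `(K3:0,01,12, co(P_3 + 4 P_2))`** -/
theorem pairH1 : BoundedCW (F9.KF 3 3 ![{0}, {0, 1}, {1, 2}]) (F9.JS ![0, 1, 1] 4) :=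
  Rep.x3H1 (H3N.nOf be)

end Pool.Agent.MPd439b2.X3.H3B
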