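import Pool.Agent.Lib.MP_d439b2_co.X3.H3B.Pth
import Pool.Agent.Lib.MP_d439b2_co.GT.Men

/-!
# MP_d439b2_co, X3/H3B, Mn: (8) of note 2954 of helper22
-/

set_option autoImplicit false

namespace Pool.Agent.MPd439b2.X3.H3B

open Pool.Agent.MPd439b2 Pool.Agent.MPd439b2.BU Pool.Agent.MPd439b2.HC Pool.Agent.MPd439b2.X3.H3G

variable {V : Type} {G : SimpleGraph V} {n : ℕ} {t p : ℕ → V} {ω M a k₁ : ℕ}

/-- there are no `8 * k₁` disjoint paths -/
theorem noPaths (hB : Bs G n t p ω M k₁) (ha : a + 40 ≤ M) (hk : 1 ≤ k₁) (N : Fin (8 * k₁) → ℕ)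
    (u : Fin (8 * k₁) → ℕ → V) (h : ∀ i, PD G n t p ω M a (N i) (u i))
    (hd : ∀ i j, i ≠ j → ∀ s, s ≤ N i → ∀ r, r ≤ N j → u i s ≠ u j r) : False := by
  classical
  have hω := hB.hω
  -- the paths with a jump
  obtain ⟨J, hJm⟩ : ∃ J : Finset (Fin (8 * k₁)), ∀ i, i ∈ J ↔ ∃ j < 8,
      a + 4 * (j + 1) < qz G t p ω M (u i (fi G t p ω M a (u i) j)) :=
    ⟨(Set.toFinite {i : Fin (8 * k₁) | ∃ j < 8,
      a + 4 * (j + 1) < qz G t p ω M (u i (fi G t p ω M a (u i) j))}).toFinset,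
      fun i => Set.Finite.mem_toFinset _⟩
  have hJc : Jᶜ.card ≤ 1 := by
    rw [Finset.card_le_one]
    intro i hi j hj
    by_contra hij
    have nj : ∀ l, l ∈ Jᶜ → ∀ m < 8, qz G t p ω M (u l (fi G t p ω M a (u l) m)) ≤ a + 4 * (m + 1) := by
      intro l hl m hm
      by_contra hc
      exact (Finset.mem_compl.1 hl) ((hJm l).2 ⟨m, hm, by omega⟩)
    exact two_slow hB ha (h i) (h j) (nj i hi) (nj j hj) (hd i j hij)
  have hJ : 8 * k₁ ≤ J.card + 1 := by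
    have h1 := Finset.card_add_card_compl J
    rw [Fintype.card_fin] at h1
    omega
  have hf : ∀ i, ∃ j, i ∈ J → (j < 8 ∧ a + 4 * (j + 1) < qz G t p ω M (u i (fi G t p ω M a (u i) j))) := by
    intro i
    by_cases hi : i ∈ J
    · obtain ⟨j, hj, h1⟩ := (hJm i).1 hi
      exact ⟨j, fun _ => ⟨hj, h1⟩⟩
    · exact ⟨0, fun h1 => absurd h1 hi⟩
  choose f hf using hf
  obtain ⟨j, hj, hcard⟩ := Finset.exists_lt_card_fiber_of_mul_lt_card_of_maps_to (s := J)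
    (t := Finset.range 8) (f := f) (n := k₁ - 1) (fun i hi => Finset.mem_range.2 (hf i hi).1) (by
      rw [Finset.card_range]
      omega)
  rw [Finset.mem_range] at hj
  obtain ⟨S, hS, hSc⟩ := Finset.exists_subset_card_eq (show k₁ ≤ (J.filter fun i => f i = j).card by
    omega)
  let σ : ℕ → Fin (8 * k₁) := fun b => if hb : b < k₁ then S.orderEmbOfFin hSc ⟨b, hb⟩ else
    ⟨0, by omega⟩
  have σe : ∀ b (hb : b < k₁), σ b = S.orderEmbOfFin hSc ⟨b, hb⟩ := fun b hb => dif_pos hb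
  have σm : ∀ b < k₁, σ b ∈ J ∧ f (σ b) = j := by
    intro b hb
    rw [σe b hb]
    exact Finset.mem_filter.1 (hS (Finset.orderEmbOfFin_mem S hSc ⟨b, hb⟩))
  have σi : ∀ b < k₁, ∀ c < k₁, b ≠ c → σ b ≠ σ c := by
    intro b hb c hc hbc h1
    rw [σe b hb, σe c hc] at h1
    exact hbc (Fin.mk.inj ((S.orderEmbOfFin hSc).injective h1))
  have hx : ∀ b, ∃ x, KL G n t p ω M x ∧ qz G t p ω M x ≤ a + 4 * j ∧
      G.Adj x (u (σ b) (fi G t p ω M a (u (σ b)) j)) := fun b => (h (σ b)).jump (by omega)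
  choose x hx using hx
  refine hB.ce (zn ω (a + 4 * j + 1)) (fun i hi => zn_lt hB.hM (by omega) hi) (by
    rw [zn_card]
    omega) x (fun b => u (σ b) (fi G t p ω M a (u (σ b)) j)) (fun b _ => (hx b).2.2)
    (fun b hb c hc hbc => hd _ _ (σi b hb c hc hbc) _ ((h (σ b)).le (by omega)) _
      ((h (σ c)).le (by omega))) (fun b _ => (hx b).1.zone hB.hM (by
        have := (hx b).2.1
        omega) (by omega)) (fun b hb => ?_)
  have h1 := (hf (σ b) (σm b hb).1).2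
  rw [(σm b hb).2] at h1
  have h2 : a + 4 * j + 1 < qz G t p ω M (u (σ b) (fi G t p ω M a (u (σ b)) j)) := by omega
  exact qz_low h2

/-- **(8)** -/
theorem mn : S_Mn := by
  intro V _ G n t p ω M k₁ a hB ha
  classical
  haveI := Fintype.ofFinite V
  have hω := hB.hω
  have hk : 1 ≤ k₁ := by
    by_contra h0
    refine hB.ce (zn ω 0) (fun i hi => zn_lt hB.hM (by omega) hi) (by
      rw [zn_card]
      omega) (fun _ => t 0) (fun _ => t 0) ?_ ?_ ?_ ?_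
    all_goals
      intro b hb
      omega
  obtain ⟨U, hU⟩ : ∃ U : Finset V, ∀ v, v ∈ U ↔ (KL G n t p ω M v ∨ a + 33 ≤ qz G t p ω M v) :=
    ⟨Finset.univ.filter fun v => KL G n t p ω M v ∨ a + 33 ≤ qz G t p ω M v, fun v => by simp⟩
  obtain ⟨Lo, hLo⟩ : ∃ U : Finset V, ∀ v, v ∈ U ↔ (KL G n t p ω M v ∧ qz G t p ω M v ≤ a) :=
    ⟨Finset.univ.filter fun v => KL G n t p ω M v ∧ qz G t p ω M v ≤ a, fun v => by simp⟩
  obtain ⟨Hi, hHi⟩ : ∃ U : Finset V, ∀ v, v ∈ U ↔ a + 33 ≤ qz G t p ω M v :=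
    ⟨Finset.univ.filter fun v => a + 33 ≤ qz G t p ω M v, fun v => by simp⟩
  by_contra hno
  have hcut : ∀ L X : Finset V, GT.Cut (GT.ins G U) Lo Hi L X → 8 * k₁ ≤ X.card := by
    intro L X hC
    by_contra hlt
    refine hno ⟨(X : Set V), ((L ∩ U : Finset V) : Set V), ?_, fun v hv => ?_, fun v h1 h2 => ?_,
      fun v hv w hw hwX hwU hvw => ?_⟩
    · rw [Set.ncard_coe_finset]
      omega
    · obtain ⟨h1, h2⟩ := Finset.mem_inter.1 (Finset.mem_coe.1 hv)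
      have h3 : ¬ a + 33 ≤ qz G t p ω M v := fun h4 =>
        Finset.disjoint_left.1 hC.last ((hHi v).2 h4) h1
      exact ⟨((hU v).1 h2).resolve_right h3, by omega⟩
    · rcases Finset.mem_union.1 (hC.head ((hLo v).2 ⟨h1, h2⟩)) with h3 | h3
      · exact Or.inl (Finset.mem_coe.2 (Finset.mem_inter.2 ⟨h3, (hU v).2 (Or.inl h1)⟩))
      · exact Or.inr (Finset.mem_coe.2 h3)
    · obtain ⟨h1, h2⟩ := Finset.mem_inter.1 (Finset.mem_coe.1 hv)
      have h3 := (hU w).2 hwU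
      rcases Finset.mem_union.1 (hC.far v h1 w ⟨hvw, h2, h3⟩) with h4 | h4
      · exact hw (Finset.mem_coe.2 (Finset.mem_inter.2 ⟨h4, h3⟩))
      · exact hwX (Finset.mem_coe.2 h4)
  obtain ⟨n', q, hL⟩ := GT.pMen V (GT.ins G U) Lo Hi (8 * k₁) hcut
  have hmU : ∀ i s, s ≤ n' i → q i s ∈ U := by
    intro i s hs
    rcases Nat.eq_zero_or_pos s with h1 | h1
    · rw [h1]
      exact (hU _).2 (Or.inl ((hLo _).1 (hL.pth i).head).1)
    · have h2 := (hL.pth i).adj (s - 1) (by omega)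
      rw [Nat.sub_add_cancel h1] at h2
      exact h2.2.2
  have hip : ∀ i, ∃ N u, IP G (Lo : Set V) Hi {v | ∃ s, s ≤ n' i ∧ q i s = v} N u := fun i =>
    exIP (n := n' i) (p := q i) (hL.pth i).head (hL.pth i).last (fun s hs => ⟨s, hs, rfl⟩)
      (fun s hs => ((hL.pth i).adj s hs).1)
  choose N u hip using hip
  refine noPaths hB ha hk N u (fun i => ?_) (fun i j hij s hs r hr heq => ?_)
  · have h1 := hip i
    refine ⟨((hLo _).1 (Finset.mem_coe.1 h1.head)).2, (hHi _).1 (Finset.mem_coe.1 h1.last),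
      fun s hs => ?_, h1.adj, h1.nadj, h1.inj⟩
    obtain ⟨r, hr, h2⟩ := h1.mem s hs.le
    have h3 := hmU i r hr
    rw [h2] at h3
    exact ((hU _).1 h3).resolve_right fun h4 => h1.hi s hs (Finset.mem_coe.2 ((hHi _).2 h4))
  · obtain ⟨s', hs', h1⟩ := (hip i).mem s hs
    obtain ⟨r', hr', h2⟩ := (hip j).mem r hr
    exact hL.dis i j hij s' hs' r' hr' (h1.trans (heq.trans h2.symm))

end Pool.Agent.MPd439b2.X3.H3B
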