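import Pool.Agent.Lib.MP_d439b2_co.X3.H3B.NearK
import Pool.Agent.Lib.MP_d439b2_co.X3.H3N.NB

/-!
# MP_d439b2_co, X3/H3B, Near: near patterns, (9) of note 2954 of helper22 (helper12)
-/

set_option autoImplicit false

namespace Pool.Agent.MPd439b2.X3.H3B

open Pool.Agent.MPd439b2 Pool.Agent.MPd439b2.Rep

/-- **near patterns** -/
theorem near : S_Near := nearK H3N.fr3_of (Rep.killJ _) H3S.killThick X3.killModO

end Pool.Agent.MPd439b2.X3.H3B
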