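import Pool.Agent.Lib.MP_d439b2_co.X3.H3B.Fin
import Pool.Agent.Lib.MP_d439b2_co.X3.H3B.Mn
import Pool.Agent.Lib.MP_d439b2_co.X3.H3B.Near

/-!
# MP_d439b2_co, X3/H3B: the statement `H3N.S_Be` (no long beta patterns)
-/

set_option autoImplicit false

namespace Pool.Agent.MPd439b2.X3.H3B

open Pool.Agent.MPd439b2

theorem be : H3N.S_Be := beOf mn near

end Pool.Agent.MPd439b2.X3.H3B
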