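import Pool.Agent.Lib.MP_d439b2_co.X3.H3B.Wd2

/-!
# MP_d439b2_co, X3/H3B, Cross: crossing edges, (5) of note 2954 of helper22
-/

set_option autoImplicit false

namespace Pool.Agent.MPd439b2.X3.H3B

open Pool.Agent.MPd439b2 Pool.Agent.MPd439b2.BU Pool.Agent.MPd439b2.HC Pool.Agent.MPd439b2.X3.H3G
open Pool.Agent.MPd439b2.Rep

variable {V : Type} {G : SimpleGraph V} {n : ℕ} {t p : ℕ → V}

theorem ne_t_of_LL (h : Hg G n t p) {u : V} {i : ℕ} (hi : i < n) (hu : LL G t p u i) : u ≠ t i := by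
  rintro rfl
  exact hu.2 ((h.tp i hi i hi).2 le_rfl)

theorem ne_p_of_LL (h : Hg G n t p) {u : V} {i : ℕ} (hi : i < n) (hu : LL G t p u i) : u ≠ p i := by
  rintro rfl
  exact hu.1 ((h.tp i hi i hi).2 le_rfl).symm

/-- (C) with a set of vertices, in a set `I` of indices -/
theorem noCI (hG : SPF G Set.univ 6 r3) (h : Hg G n t p) {I : Set ℕ} (hIn : ∀ i ∈ I, i < n)
    {X : Set V} (hX : Conn G X) {s : ℕ} (hs : {k | k ∈ I ∧ ¬ ∀ x ∈ X, LL G t p x k}.ncard ≤ s)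
    {z z' : V} (hzz : z ≠ z') (hz : {k | k ∈ I ∧ ¬ LU G t p z k}.ncard ≤ 1)
    (hz' : {k | k ∈ I ∧ ¬ LU G t p z' k}.ncard ≤ 1) (hI : s + 4 ≤ I.ncard) (tz : Tch G X {z})
    (tz' : Tch G X {z'}) : False := by
  have hIf : I.Finite := (Set.finite_lt_nat n).subset hIn
  obtain ⟨σ, s1, s2⟩ := pickG (m := 2) hIf (bad_and hIf hs (bad_and hIf hz hz')) (by omega)
  obtain ⟨i0, x0, z0, z0'⟩ := s1 0 (by omega)
  obtain ⟨i1, x1, z1, z1'⟩ := s1 1 (by omega)
  have m0 := hIn _ i0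
  have m1 := hIn _ i1
  have nz : ∀ {y : V}, LU G t p y (σ 0) → y ∉ X := fun h1 h2 => (x0 _ h2).1 h1.1
  refine noC hG h (s2 0 1 (by omega) (by omega)) m1 hX ⟨fun h1 => ?_, fun h1 => ?_, fun h1 => ?_,
    fun h1 => ?_⟩ ⟨?_, ?_, ?_, ?_⟩ hzz z0 z1 z0' z1' (nz z0) (nz z0') tz tz'
  · exact ne_t_of_LL h m0 (x0 _ h1) rfl
  · exact ne_t_of_LL h m1 (x1 _ h1) rfl
  · exact ne_p_of_LL h m0 (x0 _ h1) rfl
  · exact ne_p_of_LL h m1 (x1 _ h1) rfl
  · rintro ⟨x, hx, y, hy, hxy⟩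
    rw [Set.mem_singleton_iff] at hy
    exact (x0 x hx).1 (hy ▸ hxy)
  · rintro ⟨x, hx, y, hy, hxy⟩
    rw [Set.mem_singleton_iff] at hy
    exact (x1 x hx).1 (hy ▸ hxy)
  · rintro ⟨x, hx, y, hy, hxy⟩
    rw [Set.mem_singleton_iff] at hy
    exact (x0 x hx).2 (hy ▸ hxy)
  · rintro ⟨x, hx, y, hy, hxy⟩
    rw [Set.mem_singleton_iff] at hy
    exact (x1 x hx).2 (hy ▸ hxy)

/-- **crossing edges** -/
theorem cross (hR : W.S_RamC) (m : ℕ) : ∃ k₁ : ℕ, ∀ (V : Type) (G : SimpleGraph V) (n : ℕ)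
    (t p : ℕ → V), SPF G Set.univ 6 r3 → Hg G n t p → NoTP G m true false false →
    (∀ p r q : Fin 4 → V, (∀ i j, ¬ G.Adj (p i) (p j)) → (∀ i j, ¬ G.Adj (r i) (r j)) →
      (∀ i j, (G.Adj (p i) (r j) ↔ i = j)) → Function.Injective q → (∀ i j, G.Adj (q i) (p j)) →
      (∀ i j, ¬ G.Adj (q i) (r j)) → (∀ i j, i ≠ j → G.Adj (q i) (q j)) → False) →
    ∀ I : Set ℕ, (∀ i ∈ I, i < n) → 40 ≤ I.ncard → ∀ x z : ℕ → V,
      (∀ a < k₁, G.Adj (x a) (z a)) → (∀ a < k₁, ∀ b < k₁, a ≠ b → z a ≠ z b) →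
      (∀ a < k₁, {k | k ∈ I ∧ ¬ LL G t p (x a) k}.ncard ≤ 7) →
      (∀ a < k₁, {k | k ∈ I ∧ ¬ LU G t p (z a) k}.ncard ≤ 1) → False := by
  obtain ⟨N, hN⟩ := hR Prop (max m 4)
  refine ⟨N, fun V G n t p hG h hT hGm I hIn hI x z hxz hzz hx hz => ?_⟩
  have hIf : I.Finite := (Set.finite_lt_nat n).subset hIn
  -- `x a` misses `z b`
  have h1 : ∀ a < N, ∀ b < N, a ≠ b → ¬ G.Adj (x a) (z b) := by
    intro a ha b hb hab hadj
    refine noCI hG h hIn (Conn.singleton G (x a)) (s := 7) ?_ (hzz a ha b hb hab) (hz a ha) (hz b hb)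
      (by omega) (tch_single.2 (hxz a ha)) (tch_single.2 hadj)
    have h2 : {k | k ∈ I ∧ ¬ ∀ y ∈ ({x a} : Set V), LL G t p y k} = {k | k ∈ I ∧ ¬ LL G t p (x a) k} := by
      ext k
      simp
    rw [h2]
    exact hx a ha
  have h2 : ∀ a < N, ∀ b < N, a ≠ b → ¬ G.Adj (x a) (x b) := by
    intro a ha b hb hab hadj
    refine noCI hG h hIn (Conn.pair hadj) (s := 14) ?_ (hzz a ha b hb hab) (hz a ha) (hz b hb)
      (by omega) ⟨x a, Or.inl rfl, z a, rfl, hxz a ha⟩ ⟨x b, Or.inr rfl, z b, rfl, hxz b hb⟩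
    have h2 : {k | k ∈ I ∧ ¬ ∀ y ∈ ({x a, x b} : Set V), LL G t p y k} =
        {k | k ∈ I ∧ ¬ (LL G t p (x a) k ∧ LL G t p (x b) k)} := by
      ext k
      simp
    rw [h2]
    exact bad_and hIf (hx a ha) (hx b hb)
  have h3 : ∀ a < N, ∀ b < N, (G.Adj (z a) (x b) ↔ a = b) := by
    intro a ha b hb
    constructor
    · intro h4
      by_contra h5
      exact h1 b hb a ha (Ne.symm h5) h4.symm
    · rintro rfl
      exact (hxz a ha).symm
  obtain ⟨σ, c, s1, s2, s3⟩ := hN fun a b => G.Adj (z a) (z b)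
  have sinj : ∀ a < max m 4, ∀ b < max m 4, a ≠ b → σ a ≠ σ b := by
    intro a ha b hb hab
    rcases lt_or_gt_of_ne hab with h4 | h4
    · exact (s1 a b h4 hb).ne
    · exact (s1 b a h4 ha).ne'
  have sinj' : ∀ a < max m 4, ∀ b < max m 4, (σ a = σ b ↔ a = b) := by
    intro a ha b hb
    constructor
    · intro h4
      by_contra h5
      exact sinj a ha b hb h5 h4
    · rintro rfl
      rfl
  have xne : ∀ a < N, ∀ b < N, a ≠ b → x a ≠ x b := by
    intro a ha b hb hab h4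
    have h5 := hxz b hb
    rw [← h4] at h5
    exact h1 a ha b hb hab h5
  have zxne : ∀ a < N, ∀ b < N, z a ≠ x b := by
    intro a ha b hb h4
    by_cases hab : a = b
    · subst hab
      exact (hxz a ha).ne h4.symm
    · have h5 := hxz a ha
      rw [h4] at h5
      exact h2 a ha b hb hab h5
  by_cases hc : c
  · -- a thin spider
    refine hT (fun a => z (σ a)) (fun a => x (σ a)) ⟨?_, ?_, ?_, ?_, ?_, ?_⟩
    · exact fun i hi j hj => zxne _ (s2 i (by omega)) _ (s2 j (by omega))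
    · exact fun i hi j hj hij => hzz _ (s2 i (by omega)) _ (s2 j (by omega))
        (sinj i (by omega) j (by omega) hij)
    · exact fun i hi j hj hij => xne _ (s2 i (by omega)) _ (s2 j (by omega))
        (sinj i (by omega) j (by omega) hij)
    · intro i hi j hj hij
      refine iff_of_true ?_ rfl
      rcases lt_or_gt_of_ne hij with h4 | h4
      · exact (s3 i j h4 (by omega)).symm ▸ hc
      · exact G.symm.symm _ _ ((s3 j i h4 (by omega)).symm ▸ hc)
    · exact fun i hi j hj hij => iff_of_false (h2 _ (s2 i (by omega)) _ (s2 j (by omega))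
        (sinj i (by omega) j (by omega) hij)) Bool.false_ne_true
    · intro i hi j hj
      rw [h3 _ (s2 i (by omega)) _ (s2 j (by omega)), sinj' i (by omega) j (by omega)]
      simp
  · -- Gamma
    have zst : ∀ a < 4, ∀ b < 4, ¬ G.Adj (z (σ a)) (z (σ b)) := by
      intro a ha b hb h4
      rcases lt_trichotomy a b with h5 | h5 | h5
      · exact hc (s3 a b h5 (by omega) ▸ h4)
      · rw [h5] at h4
        exact G.irrefl h4
      · exact hc (s3 b a h5 (by omega) ▸ G.symm.symm _ _ h4)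
    have b1 := bad_all hIf (P := fun a k => LL G t p (x (σ a)) k) 4 fun a ha => hx _ (s2 a (by omega))
    have b2 := bad_all hIf (P := fun a k => LU G t p (z (σ a)) k) 4 fun a ha => hz _ (s2 a (by omega))
    obtain ⟨τ, r1, r2⟩ := pickG (m := 4) hIf (bad_and hIf b1 b2) (by omega)
    have rinj : ∀ i < 4, ∀ j < 4, i ≠ j → τ i ≠ τ j := by
      intro a ha b hb hab
      rcases lt_or_gt_of_ne hab with h4 | h4
      · exact (r2 a b h4 hb).ne
      · exact (r2 b a h4 ha).ne'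
    refine hGm (fun i => z (σ i)) (fun i => x (σ i)) (fun i => t (τ i)) ?_ ?_ ?_ ?_ ?_ ?_ ?_
    · exact fun i j => zst i i.2 j j.2
    · intro i j h4
      by_cases hij : i = j
      · rw [hij] at h4
        exact G.irrefl h4
      · exact h2 _ (s2 i (by omega)) _ (s2 j (by omega))
          (sinj i (by omega) j (by omega) fun h5 => hij (Fin.ext h5)) h4
    · intro i j
      rw [h3 _ (s2 i (by omega)) _ (s2 j (by omega)), sinj' i (by omega) j (by omega), Fin.ext_iff]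
    · intro i j hij
      by_contra h4
      exact (h.tt _ (hIn _ (r1 i i.2).1) _ (hIn _ (r1 j j.2).1)
        (rinj i i.2 j j.2 fun h5 => h4 (Fin.ext h5))).ne hij
    · exact fun i j => ((r1 i i.2).2.2 j j.2).1.symm
    · exact fun i j h4 => ((r1 i i.2).2.1 j j.2).1 h4.symm
    · exact fun i j hij => h.tt _ (hIn _ (r1 i i.2).1) _ (hIn _ (r1 j j.2).1)
        (rinj i i.2 j j.2 fun h5 => hij (Fin.ext h5))

end Pool.Agent.MPd439b2.X3.H3B
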