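import Pool.Agent.Lib.MP_d439b2_co.X3.H3B.Spec
import Pool.Agent.Lib.MP_d439b2_co.Rep.Cut

/-!
# MP_d439b2_co, X3/H3B/Cu: the rank of the cut
-/

set_option autoImplicit false

namespace Pool.Agent.MPd439b2.H3B

open Pool.Agent.MPd439b2 Pool.Agent.MPd439b2.Rep Pool.Agent.MPd439b2.H3T

/-- **Cu.** The rank of the cut. -/
theorem hCu (hF2 : S_F2) : S_Cu := by
  intro V _ G t p n ω M f hC a ha L X hL1 hL2 hL3 hw hN
  set q := qq G t p ω M with hq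
  set K := CL G t p ω M with hK
  have F2 : ∀ u v, u ∉ K → q u + 2 ≤ q v → G.Adj u v := fun u v => hF2 V G t p n ω M hC u v
  have hbX : ∀ v, v ∉ L ∪ {u | u ∉ K ∧ q u ≤ a + 32} → v ∉ X →
      (v ∉ K → a + 33 ≤ q v) ∧ (v ∈ K → a + 1 ≤ q v) := by
    intro v hv hvX
    constructor
    · intro h1
      by_contra h2
      exact hv (Or.inr ⟨h1, by omega⟩)
    · intro h1
      by_contra h2
      rcases hL2 v h1 (by omega) with h3 | h3
      · exact hv (Or.inl h3)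
      · exact hvX h3
  have h1 : LK.cr G (L ∪ {u | u ∉ K ∧ q u ≤ a + 32}) ≤
      LK.rk G ((L ∪ {u | u ∉ K ∧ q u ≤ a + 32}) \ X)
        ((L ∪ {u | u ∉ K ∧ q u ≤ a + 32})ᶜ \ X) + 2 * X.ncard :=
    rk_del G _ _ X
  set B : Set V := (L ∪ {u | u ∉ K ∧ q u ≤ a + 32})ᶜ \ X with hB
  have hBmem : ∀ v ∈ B, (v ∉ K → a + 33 ≤ q v) ∧ (v ∈ K → a + 1 ≤ q v) := fun v hv =>
    hbX v hv.1 hv.2
  have h2 : LK.rk G ((L ∪ {u | u ∉ K ∧ q u ≤ a + 32}) \ X) B ≤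
      LK.rk G L B + LK.rk G {u | u ∉ K ∧ q u ≤ a + 32} B :=
    (rk_mono G Set.sdiff_subset (Set.Subset.refl _)).trans (rk_union G _ _ _)
  have h3 : LK.rk G L B = 0 := by
    refine rk_anti G fun u hu v hv huv => ?_
    have h4 : v ∈ L ∪ X := hL3 u hu v (by
      by_cases h5 : v ∈ K
      · exact Or.inl h5
      · exact Or.inr ((hBmem v hv).1 h5)) huv
    rcases h4 with h4 | h4
    · exact hv.1 (Or.inl h4)
    · exact hv.2 h4
  have h4 : LK.rk G {u | u ∉ K ∧ q u ≤ a + 32} B ≤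
      LK.rk G {u | u ∉ K ∧ q u < a} B + LK.rk G {u | u ∉ K ∧ a ≤ q u ∧ q u ≤ a + 32} B := by
    refine (rk_mono G (A' := {u | u ∉ K ∧ q u < a} ∪ {u | u ∉ K ∧ a ≤ q u ∧ q u ≤ a + 32})
      (fun u hu => ?_) (Set.Subset.refl _)).trans (rk_union G _ _ _)
    by_cases h5 : q u < a
    · exact Or.inl ⟨hu.1, h5⟩
    · exact Or.inr ⟨hu.1, by omega, hu.2⟩
  have h5 : LK.rk G {u | u ∉ K ∧ q u < a} B ≤ 1 := by
    refine rk_comp G fun u hu v hv => F2 u v hu.1 ?_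
    have h6 := hBmem v hv
    have h7 := hu.2
    by_cases h8 : v ∈ K
    · have := h6.2 h8
      omega
    · have := h6.1 h8
      omega
  have h6 : LK.rk G {u | u ∉ K ∧ a ≤ q u ∧ q u ≤ a + 32} B ≤
      LK.rk G {u | u ∉ K ∧ a ≤ q u ∧ q u ≤ a + 32} {v | v ∈ B ∧ v ∈ K ∧ q v ≤ a + 33} +
      LK.rk G {u | u ∉ K ∧ a ≤ q u ∧ q u ≤ a + 32} {v | v ∈ B ∧ ¬ (v ∈ K ∧ q v ≤ a + 33)} := by
    refine (rk_mono G (B' := {v | v ∈ B ∧ v ∈ K ∧ q v ≤ a + 33} ∪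
      {v | v ∈ B ∧ ¬ (v ∈ K ∧ q v ≤ a + 33)})
      (Set.Subset.refl _) (fun v hv => ?_)).trans (rk_union_right G _ _ _)
    by_cases h7 : v ∈ K ∧ q v ≤ a + 33
    · exact Or.inl ⟨hv, h7⟩
    · exact Or.inr ⟨hv, h7⟩
  have h7 : LK.rk G {u | u ∉ K ∧ a ≤ q u ∧ q u ≤ a + 32} {v | v ∈ B ∧ ¬ (v ∈ K ∧ q v ≤ a + 33)} ≤ 1 := by
    refine rk_comp G fun u hu v hv => ?_
    have h8 := hBmem v hv.1
    by_cases h9 : v ∈ K
    · refine F2 u v hu.1 ?_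
      have h10 : ¬ (q v ≤ a + 33) := fun h => hv.2 ⟨h9, h⟩
      have := hu.2.2
      omega
    · have h10 := h8.1 h9
      by_cases h11 : q v ≤ a + 33
      · refine hw u v hu.1 h9 ?_ hu.2.1 (by have := hu.2.2; omega) (by omega) h11
        intro h12
        rw [h12] at hu
        have := hu.2.2
        omega
      · refine F2 u v hu.1 ?_
        have := hu.2.2
        omega
  have h8 : LK.rk G {u | u ∉ K ∧ a ≤ q u ∧ q u ≤ a + 32} {v | v ∈ B ∧ v ∈ K ∧ q v ≤ a + 33} ≤ f := by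
    refine hN _ _ ?_ ?_ ?_
    · intro u hu v hv huv
      exact hw u v hu.1 hv.1 huv hu.2.1 (by have := hu.2.2; omega) hv.2.1 (by have := hv.2.2; omega)
    · intro u hu
      exact ⟨hu.1, hu.2.1, by have := hu.2.2; omega⟩
    · intro v hv
      have := (hBmem v hv.1).2 hv.2.1
      exact ⟨hv.2.1, by omega, hv.2.2⟩
  omega

end Pool.Agent.MPd439b2.H3B
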