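import Pool.Agent.Lib.MP_d439b2_co.X3.H3B.Win
import Pool.Agent.Lib.MP_d439b2_co.X3.H3G.Final
import Pool.Agent.Lib.MP_d439b2_co.X3.H3O.Kill
import Pool.Agent.Lib.MP_d439b2_co.H3.Pr
import Pool.Agent.Lib.MP_d439b2_co.W.RamC

/-!
# MP_d439b2_co, X3/H3B, Fin: the cut (10) of note 2954 of helper22; `S_Be` from the parts
-/

set_option autoImplicit false

namespace Pool.Agent.MPd439b2.X3.H3B

open Pool.Agent.MPd439b2 Pool.Agent.MPd439b2.BU Pool.Agent.MPd439b2.HC Pool.Agent.MPd439b2.X3.H3G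
open Pool.Agent.MPd439b2.Rep

variable {V : Type} {G : SimpleGraph V} {n : ℕ} {t p : ℕ → V}

theorem t_inj (h : Hg G n t p) {i j : ℕ} (hi : i < n) (hj : j < n) (hij : t i = t j) : i = j := by
  by_contra h1
  exact (h.tt i hi j hj h1).ne hij

theorem card_t [Finite V] (h : Hg G n t p) {S : Set ℕ} (hS : ∀ i ∈ S, i < n) {A : Set V}
    (hA : ∀ i ∈ S, t i ∈ A) : S.ncard ≤ A.ncard :=
  Set.ncard_le_ncard_of_injOn t hA (fun i hi j hj hij => t_inj h (hS i hi) (hS j hj) hij)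
    (Set.toFinite A)

theorem card_Ico (a b : ℕ) : ({i | a ≤ i ∧ i < a + b} : Set ℕ).ncard = b := by
  have h1 : ({i | a ≤ i ∧ i < a + b} : Set ℕ) = ((Finset.Ico a (a + b) : Finset ℕ) : Set ℕ) := by
    ext k
    simp
  rw [h1, Set.ncard_coe_finset, Nat.card_Ico, Nat.add_sub_cancel_left]

theorem Hg.le_card [Finite V] (h : Hg G n t p) : n ≤ Nat.card V := by
  have h1 : Function.Injective (fun i : Fin n => t i) := fun i j hij => Fin.ext (t_inj h i.2 j.2 hij)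
  have h2 := Nat.card_le_card_of_injective _ h1
  rwa [Nat.card_eq_fintype_card (α := Fin n), Fintype.card_fin] at h2

/-- a half graph of maximal length -/
theorem exMax [Finite V] {N : ℕ} (h : Hg G N t p) : ∃ (n : ℕ) (t' p' : ℕ → V), N ≤ n ∧
    Hg G n t' p' ∧ ∀ (n' : ℕ) (t p : ℕ → V), Hg G n' t p → n' ≤ n := by
  have hb : BddAbove {n | ∃ t p : ℕ → V, Hg G n t p} :=
    ⟨Nat.card V, fun n hn => by
      obtain ⟨t, p, h1⟩ := hn
      exact h1.le_card⟩
  obtain ⟨t', p', h1⟩ := Nat.sSup_mem (s := {n | ∃ t p : ℕ → V, Hg G n t p}) ⟨N, t, p, h⟩ hb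
  exact ⟨_, t', p', le_csSup hb ⟨t, p, h⟩, h1, fun n' t p h2 => le_csSup hb ⟨t, p, h2⟩⟩

/-- the typed half graph as `Hg` -/
theorem hg_of {N : ℕ} {a b : ℕ → V} (h : H3N.HP G (N + 1) true false a b) :
    Hg G N a (fun i => b (i + 1)) := by
  refine ⟨fun i hi j hj hij => (h.aa i (by omega) j (by omega) hij).2 rfl, fun i hi j hj h1 => ?_,
    fun i hi j hj => ?_⟩
  · by_cases hij : i = j
    · subst hij
      exact G.irrefl h1
    · exact Bool.false_ne_true ((h.bb (i + 1) (by omega) (j + 1) (by omega) (by omega)).1 h1)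
  · rw [h.ab i (by omega) (j + 1) (by omega)]
    omega

/-- **(10)** the cut -/
theorem cutR [Finite V] {ω M k₁ a s f : ℕ} (hB : Bs G n t p ω M k₁) (ha : a + 40 ≤ M)
    (hcl : ∀ u ∈ WH G n t p ω M a (a + 33), ∀ v ∈ WH G n t p ω M a (a + 33), u ≠ v → G.Adj u v)
    (hf : LK.rk G (WH G n t p ω M a (a + 32)) (WL G n t p ω M (a + 1) (a + 33)) ≤ f)
    {X A : Set V} (hX : X.ncard ≤ s)
    (h2 : ∀ u, KL G n t p ω M u → qz G t p ω M u ≤ a → u ∈ A ∨ u ∈ X)
    (h3 : ∀ u ∈ A, ∀ v, v ∉ A → v ∉ X → (KL G n t p ω M v ∨ a + 33 ≤ qz G t p ω M v) →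
      ¬ G.Adj u v) :
    LK.cr G (A ∪ {u | KH G n t p ω M u ∧ qz G t p ω M u ≤ a + 32}) ≤ s + f + 2 := by
  have hω : 60 ≤ ω := by
    have := hB.hω
    omega
  set Q : Set V := {u | KH G n t p ω M u ∧ qz G t p ω M u ≤ a + 32} with hQ
  -- the complement is in `G'`
  have hC : ∀ v, v ∉ A ∪ Q → v ∉ A ∧ (KL G n t p ω M v ∨ a + 33 ≤ qz G t p ω M v) := by
    intro v hv
    refine ⟨fun h4 => hv (Or.inl h4), ?_⟩
    by_cases h4 : qz G t p ω M v < M
    · rcases cls hB.hG hB.h h4 with h5 | h5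
      · exact Or.inl h5
      · right
        by_contra h6
        exact hv (Or.inr ⟨h5, by omega⟩)
    · right
      omega
  have e1 : LK.rk G (A ∪ Q) ((A ∪ Q)ᶜ ∩ X) ≤ s :=
    (rk_card_right G _ _).trans ((Set.ncard_le_ncard Set.inter_subset_right (Set.toFinite X)).trans hX)
  have e2 : LK.rk G A ((A ∪ Q)ᶜ \ X) = 0 := rk_anti G fun u hu v hv =>
    h3 u hu v (hC v hv.1).1 hv.2 (hC v hv.1).2
  -- `Q`
  have e3 : LK.rk G (Q \ WH G n t p ω M a (a + 32)) ((A ∪ Q)ᶜ \ X) ≤ 1 := by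
    refine rk_comp G fun u hu v hv => ?_
    have h4 : qz G t p ω M u < a := by
      by_contra h5
      exact hu.2 ⟨hu.1.1, by omega, hu.1.2⟩
    have h5 : a < qz G t p ω M v := by
      rcases (hC v hv.1).2 with h6 | h6
      · by_contra h7
        rcases h2 v h6 (by omega) with h8 | h8
        · exact hv.1 (Or.inl h8)
        · exact hv.2 h8
      · omega
    exact adj_F2 hB.hG hB.h hB.hM hω hu.1.1 (by omega)
  have e4 : LK.rk G (WH G n t p ω M a (a + 32))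
      (((A ∪ Q)ᶜ \ X) \ WL G n t p ω M (a + 1) (a + 33)) ≤ 1 := by
    refine rk_comp G fun u hu v hv => ?_
    have hu2 := hu.2.2
    rcases (hC v hv.1.1).2 with h6 | h6
    · have h7 : a < qz G t p ω M v := by
        by_contra h7
        rcases h2 v h6 (by omega) with h8 | h8
        · exact hv.1.1 (Or.inl h8)
        · exact hv.1.2 h8
      have h8 : a + 34 ≤ qz G t p ω M v := by
        by_contra h8
        exact hv.2 ⟨h6, by omega, by omega⟩
      exact adj_F2 hB.hG hB.h hB.hM hω hu.1 (by omega)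
    · by_cases h7 : a + 34 ≤ qz G t p ω M v
      · exact adj_F2 hB.hG hB.h hB.hM hω hu.1 (by omega)
      · have h8 : qz G t p ω M v = a + 33 := by omega
        rcases cls (u := v) (ω := ω) (M := M) hB.hG hB.h (by omega) with h9 | h9
        · exact absurd ⟨h9, by omega, by omega⟩ hv.2
        · refine hcl u ⟨hu.1, hu.2.1, by omega⟩ v ⟨h9, by omega, by omega⟩ ?_
          rintro rfl
          omega
  have e5 : LK.rk G (WH G n t p ω M a (a + 32)) ((A ∪ Q)ᶜ \ X) ≤ 1 + f := by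
    refine (rk_mono G (Set.Subset.refl _) (B' := (((A ∪ Q)ᶜ \ X) \ WL G n t p ω M (a + 1) (a + 33)) ∪
      WL G n t p ω M (a + 1) (a + 33)) (fun v hv => ?_)).trans
        ((rk_union_right G _ _ _).trans (Nat.add_le_add e4 hf))
    by_cases h4 : v ∈ WL G n t p ω M (a + 1) (a + 33)
    · exact Or.inr h4
    · exact Or.inl ⟨hv, h4⟩
  have e6 : LK.rk G Q ((A ∪ Q)ᶜ \ X) ≤ 1 + (1 + f) := by
    refine (rk_mono G (A' := (Q \ WH G n t p ω M a (a + 32)) ∪ WH G n t p ω M a (a + 32))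
      (fun v hv => ?_) (Set.Subset.refl _)).trans ((rk_union G _ _ _).trans (Nat.add_le_add e3 e5))
    by_cases h4 : v ∈ WH G n t p ω M a (a + 32)
    · exact Or.inr h4
    · exact Or.inl ⟨hv, h4⟩
  have e7 : LK.rk G (A ∪ Q) ((A ∪ Q)ᶜ \ X) ≤ 0 + (1 + (1 + f)) :=
    (rk_union G _ _ _).trans (Nat.add_le_add e2.le e6)
  have e8 : LK.cr G (A ∪ Q) ≤ s + (0 + (1 + (1 + f))) := by
    refine (rk_mono G (Set.Subset.refl _) (B' := ((A ∪ Q)ᶜ ∩ X) ∪ ((A ∪ Q)ᶜ \ X))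
      (fun v hv => ?_)).trans ((rk_union_right G _ _ _).trans (Nat.add_le_add e1 e7))
    by_cases h4 : v ∈ X
    · exact Or.inl ⟨hv, h4⟩
    · exact Or.inr ⟨hv, h4⟩
  omega

/-- **beta** from (8) and (9) -/
theorem beOf (h8 : S_Mn) (h9 : S_Near) : H3N.S_Be := by
  intro m hm β
  obtain ⟨k₁, hk⟩ := cross W.ramC m
  obtain ⟨c₁, N, hN⟩ := h9 m hm β (60 + 2 * k₁) k₁
  obtain ⟨f, hf⟩ := rk3 N
  obtain ⟨ω, hω⟩ : ∃ ω, ω = 60 + 2 * k₁ := ⟨_, rfl⟩
  obtain ⟨b, hb⟩ : ∃ b, b = β (8 * k₁ + f + 2) := ⟨_, rfl⟩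
  refine ⟨max c₁ (8 * k₁ + f + 2), (b + 160 + b) * ω + 1, fun V _ G hF hT hL hS hU a' b' hab => ?_⟩
  rw [← hω] at hN
  obtain ⟨n, t, p, hn, hH, hmax⟩ := exMax (hg_of hab)
  have hJ := frJ_of hF
  have hcard : 4 ≤ Nat.card V := by
    have h1 := hH.le_card
    have h2 : 160 * 60 ≤ (b + 160 + b) * ω := Nat.mul_le_mul (by omega) (by omega)
    omega
  have hP : H3.Prm G := (H3.pfPr V G).1 hS hcard hU
  have hCE : CE G n t p k₁ := hk V G n t p hJ.r3 hH (hT (true, false, false) rfl)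
    fun p r q hp hr hpr hq hqp hqr hqq => gmF V G hJ.h3 hP hS p r q hp hr hpr hq hqp hqr
      (Or.inr hqq)
  have hB : Bs G n t p ω (b + 160 + b) k₁ := ⟨hJ.r3, hH, hn, hω.ge, hCE⟩
  obtain ⟨i, hi, hcl⟩ := win V G n t p ω (b + 160 + b) k₁ (b + 3) hB hJ.j (by omega)
  obtain ⟨a, ha⟩ : ∃ a, a = b + 3 + 35 * i := ⟨_, rfl⟩
  rw [← ha] at hcl
  obtain ⟨X, A, hX, h1, h2, h3⟩ := h8 V G n t p ω (b + 160 + b) k₁ a hB (by omega)
  have h4 := hN V G hF hT (link_mono (le_max_left _ _) hL) hS hU n t p (b + 160 + b) a hB hmax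
    (by omega) (by omega) hcl
  have h5 := cutR hB (by omega) hcl (hf V G _ _ h4) hX.le h2 h3
  have hω60 : 60 ≤ ω := by omega
  refine link_false hL (le_max_right _ _) h5 ?_ ?_
  · rw [← hb]
    have h6 := card_t (S := {i | 0 ≤ i ∧ i < 0 + (b + 1)}) (A := A ∪ {u | KH G n t p ω (b + 160 + b) u ∧
      qz G t p ω (b + 160 + b) u ≤ a + 32}) hH (fun i hi' => ?_) (fun i hi' => Or.inr ?_)
    · rw [card_Ico] at h6
      omega
    · have h7 : (b + 160 + b) * 1 ≤ (b + 160 + b) * ω := Nat.mul_le_mul_left _ (by omega)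
      have h8 := hi'.2
      omega
    · have h7 : (a + 1) * 1 ≤ (a + 1) * ω := Nat.mul_le_mul_left _ (by omega)
      have h8 := hi'.2
      have h9 : qz G t p ω (b + 160 + b) (t i) ≤ a + 1 := qt_le hH hn hω60 (d := a) (by omega)
        (by omega)
      have h10 : i < n := by
        have h7 : (b + 160 + b) * 1 ≤ (b + 160 + b) * ω := Nat.mul_le_mul_left _ (by omega)
        omega
      exact ⟨KH_t hH h10 (by omega), by omega⟩
  · rw [← hb]
    have hlen : (a + 34) * ω + (b + 1) ≤ n := by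
      have h7 : (a + 34 + (b + 1)) * ω ≤ (b + 160 + b) * ω := Nat.mul_le_mul_right _ (by omega)
      have h8 : (b + 1) * 1 ≤ (b + 1) * ω := Nat.mul_le_mul_left _ (by omega)
      rw [Nat.add_mul] at h7
      omega
    have h6 := card_t (S := {i | (a + 34) * ω ≤ i ∧ i < (a + 34) * ω + (b + 1)})
      (A := (A ∪ {u | KH G n t p ω (b + 160 + b) u ∧ qz G t p ω (b + 160 + b) u ≤ a + 32})ᶜ) hH
      (fun i hi' => ?_) (fun i hi' => ?_)
    · rw [card_Ico] at h6
      omega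
    · have h8 := hi'.2
      omega
    · have h8 := hi'.2
      have h9 : a + 34 ≤ qz G t p ω (b + 160 + b) (t i) := le_qt hH (by omega) (by omega) hi'.1
      rintro (h10 | h10)
      · have := (h1 _ h10).2
        omega
      · have := h10.2
        omega

end Pool.Agent.MPd439b2.X3.H3B
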