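import Pool.Agent.Lib.MP_d439b2_co.X3.H3B.Spec

/-!
# MP_d439b2_co, X3/H3B, Ins: insertion of a half graph into a half graph, (9) of note 2954 of helper22 (helper12)
-/

set_option autoImplicit false

namespace Pool.Agent.MPd439b2.X3.H3B

open Pool.Agent.MPd439b2 Pool.Agent.MPd439b2.BU Pool.Agent.MPd439b2.HC Pool.Agent.MPd439b2.X3.H3G
open Pool.Agent.MPd439b2.Rep

namespace Ins

variable {V : Type} {G : SimpleGraph V} {n : ℕ} {t p : ℕ → V} {ω M k₁ : ℕ}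

/-- a vertex with `q ≥ e + 1` has at most one letter different from `U` below the zone `e` -/
theorem one_low (hB : Bs G n t p ω M k₁) {u : V} {e i j : ℕ} (he : e < qz G t p ω M u) (hij : i < j)
    (hj : j < e * ω) (h1 : ¬ LU G t p u i) (h2 : ¬ LU G t p u j) : False := by
  have hω := hB.hω
  have heM : e < M := he.trans_le qz_le
  have sub : ∀ P : ℕ → Prop, {k | k ∈ zn ω e ∧ P k} ⊆ {k | (j < k ∧ k < n) ∧ P k} := fun P k hk =>
    ⟨⟨hj.trans_le hk.1.1, zn_lt hB.hM heM hk.1⟩, hk.2⟩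
  have fin : ∀ P : ℕ → Prop, {k | (j < k ∧ k < n) ∧ P k}.Finite := fun P =>
    (Set.finite_lt_nat n).subset fun k hk => hk.1.2
  have h3 := qz_low he
  rcases words hB.hG hB.h hij h1 h2 with h4 | h4
  · obtain ⟨σ, s1, -⟩ := pickG (m := 1) (zn_fin ω e)
      (bad_and (zn_fin _ _) h3 ((Set.ncard_le_ncard (sub _) (fin _)).trans h4)) (by rw [zn_card]; omega)
    exact (s1 0 (by omega)).2.2.1 (s1 0 (by omega)).2.1.1
  · obtain ⟨σ, s1, -⟩ := pickG (m := 1) (zn_fin ω e)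
      (bad_and (zn_fin _ _) h3 ((Set.ncard_le_ncard (sub _) (fin _)).trans h4)) (by rw [zn_card]; omega)
    exact (s1 0 (by omega)).2.1.2 (s1 0 (by omega)).2.2.2

private theorem card0 {S : Set ℕ} (h : ∀ k, k ∉ S) : S.ncard = 0 := by
  have h1 : S = ∅ := Set.eq_empty_iff_forall_notMem.2 h
  rw [h1, Set.ncard_empty]

/-- (i) the low bad indices -/
theorem badL (hB : Bs G n t p ω M k₁) {e : ℕ} {W : Set V}
    (hW : ∀ w ∈ W, e < qz G t p ω M w) (heM : e < M) :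
    {i | i < e * ω ∧ ¬ ∀ w ∈ W, ¬ G.Adj (p i) w}.ncard < k₁ := by
  have hω := hB.hω
  have hfin : {i | i < e * ω ∧ ¬ ∀ w ∈ W, ¬ G.Adj (p i) w}.Finite :=
    (Set.finite_lt_nat (e * ω)).subset fun i hi => hi.1
  by_contra hc
  obtain ⟨σ, s1, s2⟩ := incN _ hfin k₁ (by omega)
  have h1 : ∀ a, ∃ w, a < k₁ → w ∈ W ∧ G.Adj (p (σ a)) w := by
    intro a
    by_cases ha : a < k₁
    · obtain ⟨-, h2⟩ := s1 a ha
      push Not at h2
      obtain ⟨w, hw, h3⟩ := h2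
      exact ⟨w, fun _ => ⟨hw, h3⟩⟩
    · exact ⟨p 0, fun h => absurd h ha⟩
  choose w hw using h1
  have hlt : ∀ k ∈ zn ω e, k < n := fun k hk => zn_lt hB.hM heM hk
  have hsn : ∀ a < k₁, σ a < n := by
    intro a ha
    have h2 := (s1 a ha).1
    have h3 : e * ω ≤ M * ω := Nat.mul_le_mul_right _ heM.le
    have h4 := hB.hM
    omega
  refine hB.ce (zn ω e) hlt (by rw [zn_card]; omega) (fun a => p (σ a)) w (fun a ha => (hw a ha).2)
    ?_ ?_ ?_
  · have key : ∀ a b, a < b → b < k₁ → w a ≠ w b := by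
      intro a b hab hb h2
      have h3 := (hw a (by omega)).2
      have h4 := (hw b hb).2
      rw [← h2] at h4
      exact one_low hB (hW _ (hw a (by omega)).1) (s2 a b hab hb) (s1 b hb).1
        (fun h5 => h5.2 h3.symm) fun h5 => h5.2 h4.symm
    intro a ha b hb hab
    rcases lt_or_gt_of_ne hab with h2 | h2
    · exact key a b h2 hb
    · exact (key b a h2 ha).symm
  · intro a ha
    rw [card0]
    · omega
    · rintro k ⟨h2, h3⟩
      exact h3 (p_LL hB.h (lt_of_lt_of_le (s1 a ha).1 h2.1) (hlt k h2))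
  · exact fun a ha => qz_low (hW _ (hw a ha).1)

/-- (ii) the high bad indices -/
theorem badH (hB : Bs G n t p ω M k₁) {e : ℕ} {Y : Set V}
    (hY : ∀ y ∈ Y, KL G n t p ω M y ∧ qz G t p ω M y < e) (heM : e < M) :
    {k | ((e + 1) * ω ≤ k ∧ k < n) ∧ ¬ ∀ y ∈ Y, ¬ G.Adj y (t k) ∧ ¬ G.Adj y (p k)}.ncard < k₁ := by
  have hω := hB.hω
  have h := hB.h
  have hfin : {k | ((e + 1) * ω ≤ k ∧ k < n) ∧
      ¬ ∀ y ∈ Y, ¬ G.Adj y (t k) ∧ ¬ G.Adj y (p k)}.Finite :=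
    (Set.finite_lt_nat n).subset fun i hi => hi.1.2
  by_contra hc
  obtain ⟨σ, s1, s2⟩ := incN _ hfin k₁ (by omega)
  have h1 : ∀ a, ∃ y z, a < k₁ → y ∈ Y ∧ G.Adj y z ∧ (z = t (σ a) ∨ z = p (σ a)) := by
    intro a
    by_cases ha : a < k₁
    · obtain ⟨-, h2⟩ := s1 a ha
      rw [not_forall] at h2
      obtain ⟨y, h2⟩ := h2
      rw [Classical.not_imp] at h2
      obtain ⟨hy, h3⟩ := h2
      by_cases h4 : G.Adj y (t (σ a))
      · exact ⟨y, t (σ a), fun _ => ⟨hy, h4, Or.inl rfl⟩⟩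
      · by_cases h5 : G.Adj y (p (σ a))
        · exact ⟨y, p (σ a), fun _ => ⟨hy, h5, Or.inr rfl⟩⟩
        · exact absurd ⟨h4, h5⟩ h3
    · exact ⟨p 0, p 0, fun h => absurd h ha⟩
  choose y z hyz using h1
  have hlt : ∀ k ∈ zn ω e, k < n := fun k hk => zn_lt hB.hM heM hk
  refine hB.ce (zn ω e) hlt (by rw [zn_card]; omega) y z (fun a ha => (hyz a ha).2.1) ?_ ?_ ?_
  · have key : ∀ a b, a < b → b < k₁ → z a ≠ z b := by
      intro a b hab hb h2
      have ha : a < k₁ := by omega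
      have h3 := s2 a b hab hb
      have na := (s1 a ha).1.2
      have nb := (s1 b hb).1.2
      have ptne : p (σ a) ≠ p (σ b) := by
        intro h4
        have h5 := (h.tp _ nb _ nb).2 le_rfl
        rw [← h4, h.tp _ nb _ na] at h5
        omega
      rcases (hyz a ha).2.2 with h4 | h4 <;> rcases (hyz b hb).2.2 with h5 | h5
      · rw [h4, h5] at h2
        exact (h.tt _ na _ nb h3.ne).ne h2
      · rw [h4, h5] at h2
        exact ne_tp h na nb h2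
      · rw [h4, h5] at h2
        exact ne_tp h nb na h2.symm
      · rw [h4, h5] at h2
        exact ptne h2
    intro a ha b hb hab
    rcases lt_or_gt_of_ne hab with h2 | h2
    · exact key a b h2 hb
    · exact (key b a h2 ha).symm
  · exact fun a ha => (hY _ (hyz a ha).1).1.zone hB.hM (hY _ (hyz a ha).1).2 heM
  · intro a ha
    rw [card0]
    · omega
    · rintro k ⟨h2, h3⟩
      have h4 : k < σ a := lt_of_lt_of_le h2.2 (s1 a ha).1.1
      rcases (hyz a ha).2.2 with h5 | h5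
      · rw [h5] at h3
        exact h3 (t_LU h (s1 a ha).1.2 h4)
      · rw [h5] at h3
        exact h3 (p_LU h (s1 a ha).1.2 h4.le)

/-- three pieces -/
theorem glue {l₁ m' l₂ : ℕ} {t₁ p₁ h y t₂ p₂ : ℕ → V} (h1 : Hg G l₁ t₁ p₁) (h2 : Hg G m' h y)
    (h3 : Hg G l₂ t₂ p₂)
    (a1 : ∀ i < l₁, ∀ j < m', G.Adj (t₁ i) (h j) ∧ G.Adj (t₁ i) (y j) ∧ ¬ G.Adj (p₁ i) (h j) ∧
      ¬ G.Adj (p₁ i) (y j))
    (a2 : ∀ i < m', ∀ j < l₂, G.Adj (h i) (t₂ j) ∧ G.Adj (h i) (p₂ j) ∧ ¬ G.Adj (y i) (t₂ j) ∧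
      ¬ G.Adj (y i) (p₂ j))
    (a3 : ∀ i < l₁, ∀ j < l₂, G.Adj (t₁ i) (t₂ j) ∧ G.Adj (t₁ i) (p₂ j) ∧ ¬ G.Adj (p₁ i) (t₂ j) ∧
      ¬ G.Adj (p₁ i) (p₂ j)) :
    Hg G (l₁ + m' + l₂)
      (fun i => if i < l₁ then t₁ i else if i < l₁ + m' then h (i - l₁) else t₂ (i - (l₁ + m')))
      (fun i => if i < l₁ then p₁ i else if i < l₁ + m' then y (i - l₁) else p₂ (i - (l₁ + m'))) := by
  obtain ⟨T, hT⟩ : ∃ T : ℕ → V, T = fun i =>
    if i < l₁ then t₁ i else if i < l₁ + m' then h (i - l₁) else t₂ (i - (l₁ + m')) := ⟨_, rfl⟩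
  obtain ⟨P, hP⟩ : ∃ P : ℕ → V, P = fun i =>
    if i < l₁ then p₁ i else if i < l₁ + m' then y (i - l₁) else p₂ (i - (l₁ + m')) := ⟨_, rfl⟩
  rw [← hT, ← hP]
  have sp : ∀ i < l₁ + m' + l₂, (i < l₁ ∧ T i = t₁ i ∧ P i = p₁ i) ∨
      (∃ k < m', i = l₁ + k ∧ T i = h k ∧ P i = y k) ∨
      ∃ k < l₂, i = l₁ + m' + k ∧ T i = t₂ k ∧ P i = p₂ k := by
    intro i hi
    by_cases c1 : i < l₁
    · refine Or.inl ⟨c1, ?_, ?_⟩
      · rw [hT]
        exact if_pos c1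
      · rw [hP]
        exact if_pos c1
    · by_cases c2 : i < l₁ + m'
      · refine Or.inr (Or.inl ⟨i - l₁, by omega, by omega, ?_, ?_⟩)
        · rw [hT]
          simp only [if_neg c1, if_pos c2]
        · rw [hP]
          simp only [if_neg c1, if_pos c2]
      · refine Or.inr (Or.inr ⟨i - (l₁ + m'), by omega, by omega, ?_, ?_⟩)
        · rw [hT]
          simp only [if_neg c1, if_neg c2]
        · rw [hP]
          simp only [if_neg c1, if_neg c2]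
  refine ⟨?_, ?_, ?_⟩
  · intro i hi j hj hij
    rcases sp i hi with ⟨c, e, -⟩ | ⟨k, c, q, e, -⟩ | ⟨k, c, q, e, -⟩ <;>
      rcases sp j hj with ⟨c', e', -⟩ | ⟨k', c', q', e', -⟩ | ⟨k', c', q', e', -⟩ <;> rw [e, e']
    · exact h1.tt _ c _ c' hij
    · exact (a1 _ c _ c').1
    · exact (a3 _ c _ c').1
    · exact (a1 _ c' _ c).1.symm
    · exact h2.tt _ c _ c' (by omega)
    · exact (a2 _ c _ c').1
    · exact (a3 _ c' _ c).1.symm
    · exact (a2 _ c' _ c).1.symm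
    · exact h3.tt _ c _ c' (by omega)
  · intro i hi j hj
    rcases sp i hi with ⟨c, -, e⟩ | ⟨k, c, q, -, e⟩ | ⟨k, c, q, -, e⟩ <;>
      rcases sp j hj with ⟨c', -, e'⟩ | ⟨k', c', q', -, e'⟩ | ⟨k', c', q', -, e'⟩ <;> rw [e, e']
    · exact h1.pp _ c _ c'
    · exact (a1 _ c _ c').2.2.2
    · exact (a3 _ c _ c').2.2.2
    · exact fun h' => (a1 _ c' _ c).2.2.2 h'.symm
    · exact h2.pp _ c _ c'
    · exact (a2 _ c _ c').2.2.2
    · exact fun h' => (a3 _ c' _ c).2.2.2 h'.symm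
    · exact fun h' => (a2 _ c' _ c).2.2.2 h'.symm
    · exact h3.pp _ c _ c'
  · intro i hi j hj
    rcases sp i hi with ⟨c, e, -⟩ | ⟨k, c, q, e, -⟩ | ⟨k, c, q, e, -⟩ <;>
      rcases sp j hj with ⟨c', -, e'⟩ | ⟨k', c', q', -, e'⟩ | ⟨k', c', q', -, e'⟩ <;> rw [e, e']
    · exact h1.tp _ c _ c'
    · exact iff_of_true (a1 _ c _ c').2.1 (by omega)
    · exact iff_of_true (a3 _ c _ c').2.1 (by omega)
    · exact iff_of_false (fun h' => (a1 _ c' _ c).2.2.1 h'.symm) (by omega)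
    · rw [h2.tp _ c _ c']
      omega
    · exact iff_of_true (a2 _ c _ c').2.1 (by omega)
    · exact iff_of_false (fun h' => (a3 _ c' _ c).2.2.1 h'.symm) (by omega)
    · exact iff_of_false (fun h' => (a2 _ c' _ c).2.2.1 h'.symm) (by omega)
    · rw [h3.tp _ c _ c']
      omega

/-- **insertion** -/
theorem insert (hB : Bs G n t p ω M k₁) {a m' : ℕ} (ha : 3 ≤ a) (haM : a + 37 ≤ M) {h y : ℕ → V}
    (hh : ∀ i < m', h i ∈ WH G n t p ω M a (a + 33)) (hy : ∀ i < m', y i ∈ WL G n t p ω M (a + 1) (a + 33))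
    (h2 : Hg G m' h y) : ∃ n' t' p', Hg G n' t' p' ∧ n + m' ≤ n' + 37 * ω + 2 * k₁ := by
  have hω := hB.hω
  have hH := hB.h
  have hM := hB.hM
  obtain ⟨b, rfl⟩ : ∃ b, a = b + 3 := ⟨a - 3, by omega⟩
  have e1 : (b + 1) * ω = b * ω + ω := by ring
  have e38 : (b + 38) * ω = b * ω + 38 * ω := by ring
  have e40 : (b + 40) * ω = b * ω + 40 * ω := by ring
  have hMn : (b + 40) * ω ≤ n := (Nat.mul_le_mul_right ω (by omega)).trans hM
  -- low indices
  have cL := badL hB (e := b + 1) (W := {w | b + 3 ≤ qz G t p ω M w}) (fun w hw => by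
    have : b + 3 ≤ qz G t p ω M w := hw
    omega) (by omega)
  have fL : {i : ℕ | i < (b + 1) * ω}.Finite := Set.finite_lt_nat _
  have nL : {i : ℕ | i < (b + 1) * ω}.ncard = (b + 1) * ω := by
    have h1 : {i : ℕ | i < (b + 1) * ω} = ((Finset.range ((b + 1) * ω) : Finset ℕ) : Set ℕ) := by
      ext k
      simp
    rw [h1, Set.ncard_coe_finset, Finset.card_range]
  obtain ⟨σ, s1, s2⟩ := pickG (m := (b + 1) * ω - k₁) (s := k₁) fL
    (P := fun i => ∀ w ∈ {w | b + 3 ≤ qz G t p ω M w}, ¬ G.Adj (p i) w) cL.le (by rw [nL]; omega)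
  -- high indices
  have cH := badH hB (e := b + 37) (Y := {w | KL G n t p ω M w ∧ qz G t p ω M w ≤ b + 36})
    (fun w hw => ⟨hw.1, Nat.lt_succ_of_le hw.2⟩) (by omega)
  have fH : {k : ℕ | (b + 37 + 1) * ω ≤ k ∧ k < n}.Finite :=
    (Set.finite_lt_nat n).subset fun i hi => hi.2
  have nH : {k : ℕ | (b + 37 + 1) * ω ≤ k ∧ k < n}.ncard = n - (b + 38) * ω := by
    have h1 : {k : ℕ | (b + 37 + 1) * ω ≤ k ∧ k < n} =
        ((Finset.Ico ((b + 38) * ω) n : Finset ℕ) : Set ℕ) := by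
      ext k
      simp
    rw [h1, Set.ncard_coe_finset, Nat.card_Ico]
  obtain ⟨τ, r1, r2⟩ := pickG (m := n - (b + 38) * ω - k₁) (s := k₁) fH
    (P := fun k => ∀ y ∈ {w | KL G n t p ω M w ∧ qz G t p ω M w ≤ b + 36},
      ¬ G.Adj y (t k) ∧ ¬ G.Adj y (p k)) cH.le (by rw [nH]; omega)
  have sn : ∀ i < (b + 1) * ω - k₁, σ i < (b + 1) * ω := fun i hi => (s1 i hi).1
  have sn' : ∀ i < (b + 1) * ω - k₁, σ i < n := fun i hi => by
    have := sn i hi
    omega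
  have rn : ∀ i < n - (b + 38) * ω - k₁, (b + 38) * ω ≤ τ i ∧ τ i < n := fun i hi => (r1 i hi).1
  -- the letters `q`
  have qt : ∀ i < (b + 1) * ω - k₁, KH G n t p ω M (t (σ i)) ∧ qz G t p ω M (t (σ i)) ≤ b + 1 := by
    intro i hi
    have h3 := qt_le hH hM (by omega) (d := b) (sn i hi) (by omega)
    exact ⟨KH_t hH (sn' i hi) (by omega), h3⟩
  have qh : ∀ i < n - (b + 38) * ω - k₁, b + 38 ≤ qz G t p ω M (t (τ i)) ∧
      b + 38 ≤ qz G t p ω M (p (τ i)) := fun i hi =>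
    ⟨le_qt hH (rn i hi).2 (by omega) (rn i hi).1, le_qp hH (rn i hi).2 (by omega) (rn i hi).1⟩
  refine ⟨(b + 1) * ω - k₁ + m' + (n - (b + 38) * ω - k₁), _, _,
    glue (hH.sub sn' fun i hi j hj hij => s2 i j hij hj) h2
      (hH.sub (fun i hi => (rn i hi).2) fun i hi j hj hij => r2 i j hij hj) ?_ ?_ ?_, by omega⟩
  · intro i hi j hj
    have h3 := hh j hj
    have h4 := hy j hj
    have h5 := qt i hi
    have h6 := (s1 i hi).2
    have h7 : b + 3 ≤ qz G t p ω M (h j) := h3.2.1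
    have h8 : b + 3 + 1 ≤ qz G t p ω M (y j) := h4.2.1
    exact ⟨adj_F2 hB.hG hH hM (by omega) h5.1 (by omega), adj_F2 hB.hG hH hM (by omega) h5.1 (by omega),
      h6 _ h7, h6 _ (show b + 3 ≤ qz G t p ω M (y j) by omega)⟩
  · intro i hi j hj
    have h3 := hh i hi
    have h4 := hy i hi
    have h5 := qh j hj
    have h6 := (r1 j hj).2
    have h7 : qz G t p ω M (h i) ≤ b + 3 + 33 := h3.2.2
    have h8 : qz G t p ω M (y i) ≤ b + 3 + 33 := h4.2.2
    have h9 := h6 (y i) ⟨h4.1, by omega⟩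
    exact ⟨adj_F2 hB.hG hH hM (by omega) h3.1 (by omega), adj_F2 hB.hG hH hM (by omega) h3.1 (by omega),
      h9.1, h9.2⟩
  · intro i hi j hj
    have h3 := sn i hi
    have h4 := rn j hj
    have h5 := sn' i hi
    exact ⟨hH.tt _ h5 _ h4.2 (by omega), (hH.tp _ h5 _ h4.2).2 (by omega),
      fun h' => absurd ((hH.tp _ h4.2 _ h5).1 h'.symm) (by omega), hH.pp _ h5 _ h4.2⟩

end Ins

end Pool.Agent.MPd439b2.X3.H3B
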