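import Pool.Agent.Lib.MP_d439b2_co.X3.H3B.Spec

/-!
# MP_d439b2_co, X3/H3B/Mg: the separator
-/

set_option autoImplicit false

namespace Pool.Agent.MPd439b2.H3B

open Pool.Agent.MPd439b2 Pool.Agent.MPd439b2.Rep Pool.Agent.MPd439b2.H3T

/-- fewer than `k₁` of a family of disjoint paths have a jump at `c` -/
private lemma Mg_few (hJu : S_Ju) {V : Type} [Finite V] {G : SimpleGraph V} {t p : ℕ → V}
    {n ω M k₁ : ℕ} (hC : Ctx G t p n ω M) (hF5 : F5 G t p ω M k₁) (hk1 : 1 ≤ k₁) {a N : ℕ}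
    (l : Fin N → ℕ) (r : Fin N → ℕ → V) (hr : ∀ i, LPt G t p ω M a (l i) (r i))
    (hd : ∀ i i', i ≠ i' → ∀ s ≤ l i, ∀ s' ≤ l i', r i s ≠ r i' s') (c : ℕ) (hc : c + 1 < M)
    (J : Finset (Fin N)) (hJ : ∀ i ∈ J, Jmp G t p ω M (l i) (r i) c) : J.card < k₁ := by
  by_contra hcon
  push Not at hcon
  have hJ' : ∀ i, i ∈ J → ∃ s, s < l i ∧ qq G t p ω M (r i s) ≤ c ∧
      c + 4 < qq G t p ω M (r i (s + 1)) := fun i hi => hJ i hi
  choose! S hS using hJ'
  let e : Fin k₁ ↪o Fin N := J.orderEmbOfCardLe hcon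
  have he : ∀ x, e x ∈ J := fun x => Finset.orderEmbOfCardLe_mem J hcon x
  let f : ℕ → Fin N := fun x => if h : x < k₁ then e ⟨x, h⟩ else e ⟨0, hk1⟩
  have hf : ∀ x, f x ∈ J := by
    intro x
    by_cases h : x < k₁
    · simp only [f, dif_pos h]
      exact he _
    · simp only [f, dif_neg h]
      exact he _
  have hfi : ∀ x < k₁, ∀ y < k₁, f x = f y → x = y := by
    intro x hx y hy hxy
    simp only [f, dif_pos hx, dif_pos hy] at hxy
    have := e.injective hxy
    exact congrArg Fin.val this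
  refine hF5 (c + 1) hc ⟨fun x => r (f x) (S (f x)), fun x => r (f x) (S (f x) + 1), ?_, ?_⟩
  · intro x _
    obtain ⟨h1, h2, h3⟩ := hS (f x) (hf x)
    exact hJu V G t p n ω M hC a (l (f x)) (r (f x)) c (hr _) _ h1 h2 h3
  · intro x hx y hy hxy
    refine hfi x hx y hy ?_
    by_contra hne
    exact hd _ _ hne _ (by have := (hS (f x) (hf x)).1; omega) _
      (by have := (hS (f y) (hf y)).1; omega) hxy

/-- **Mg.** The separator. -/
theorem hMg (hMen : GT.SMen) (hIp : S_Ip) (hJu : S_Ju) (hSS : S_SS) : S_Mg := by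
  classical
  intro V _ G t p n ω M k₁ hC hF5 hk1 hkω a ha
  have : Fintype V := Fintype.ofFinite V
  set q := qq G t p ω M with hq
  set K := CL G t p ω M with hK
  let Vg : Finset V := Finset.univ.filter fun v => v ∈ K ∨ a + 33 ≤ q v
  let A : Finset V := Finset.univ.filter fun v => v ∈ K ∧ q v ≤ a
  let B : Finset V := Finset.univ.filter fun v => a + 33 ≤ q v
  have hVg : ∀ v, v ∈ Vg ↔ (v ∈ K ∨ a + 33 ≤ q v) := fun v => by simp [Vg]
  have hA : ∀ v, v ∈ A ↔ (v ∈ K ∧ q v ≤ a) := fun v => by simp [A]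
  have hB : ∀ v, v ∈ B ↔ a + 33 ≤ q v := fun v => by simp [B]
  by_cases hcut : ∀ L X : Finset V, GT.Cut (GT.ins G Vg) A B L X → 8 * k₁ ≤ X.card
  · exfalso
    obtain ⟨nn, P, hL⟩ := hMen V (GT.ins G Vg) A B (8 * k₁) hcut
    have hin : ∀ i, ∀ s ≤ nn i, P i s ∈ Vg := by
      intro i s hs
      have h0 : nn i ≠ 0 := by
        intro h0
        have h1 := (hA _).1 (hL.pth i).head
        have h2 := (hL.pth i).last
        rw [h0] at h2
        have h3 := (hB _).1 h2
        omega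
      rcases Nat.lt_or_ge s (nn i) with h1 | h1
      · exact ((hL.pth i).adj s h1).2.1
      · have h2 : s = (nn i - 1) + 1 := by omega
        rw [h2]
        exact ((hL.pth i).adj (nn i - 1) (by omega)).2.2
    have hpath : ∀ i, ∃ (l' : ℕ) (r : ℕ → V), LPt G t p ω M a l' r ∧
        ∀ s ≤ l', ∃ j ≤ nn i, r s = P i j := by
      intro i
      obtain ⟨l', r, h1, h2, h3, h4, h5⟩ := hIp V G (A : Set V) (B : Set V) (nn i) (P i)
        (hL.pth i).head (hL.pth i).last (fun s hs => ((hL.pth i).adj s hs).1)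
      refine ⟨l', r, ⟨h1, ((hA _).1 h2).2, (hB _).1 h3, ?_⟩, h5⟩
      intro s hs
      obtain ⟨j, hj, h6⟩ := h5 s hs.le
      have h7 : r s ∈ Vg := by
        rw [h6]
        exact hin i j hj
      have h8 : ¬ a + 33 ≤ q (r s) := fun h => h4 s hs ((hB _).2 h)
      rcases (hVg _).1 h7 with h9 | h9
      · exact ⟨h9, by rw [← hq]; omega⟩
      · exact absurd h9 h8
    choose l r hr hrP using hpath
    have hd : ∀ i i', i ≠ i' → ∀ s ≤ l i, ∀ s' ≤ l i', r i s ≠ r i' s' := by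
      intro i i' hii s hs s' hs' heq
      obtain ⟨j, hj, h1⟩ := hrP i s hs
      obtain ⟨j', hj', h2⟩ := hrP i' s' hs'
      exact hL.dis i i' hii j hj j' hj' (by rw [← h1, ← h2, heq])
    let J : Fin 8 → Finset (Fin (8 * k₁)) := fun j =>
      Finset.univ.filter fun i => Jmp G t p ω M (l i) (r i) (a + 4 * j.val)
    have hJ : ∀ j, (J j).card ≤ k₁ - 1 := by
      intro j
      have h1 := Mg_few hJu hC hF5 hk1 l r hr hd (a + 4 * j.val) (by have := j.isLt; omega) (J j)
        (fun i hi => (Finset.mem_filter.1 hi).2)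
      omega
    have hU : (Finset.univ.biUnion J).card ≤ 8 * (k₁ - 1) := by
      refine Finset.card_biUnion_le.trans ?_
      refine (Finset.sum_le_card_nsmul _ _ (k₁ - 1) fun j _ => hJ j).trans ?_
      simp
    have hcc : 1 < (Finset.univ.biUnion J)ᶜ.card := by
      rw [Finset.card_compl, Fintype.card_fin]
      omega
    obtain ⟨i, hi, i', hi', hne⟩ := Finset.one_lt_card.1 hcc
    have hno : ∀ x : Fin (8 * k₁), x ∈ (Finset.univ.biUnion J)ᶜ → ∀ j < 8,
        ¬ Jmp G t p ω M (l x) (r x) (a + 4 * j) := by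
      intro x hx j hj hjm
      rw [Finset.mem_compl] at hx
      apply hx
      rw [Finset.mem_biUnion]
      exact ⟨⟨j, hj⟩, Finset.mem_univ _, Finset.mem_filter.2 ⟨Finset.mem_univ _, hjm⟩⟩
    exact hSS V G t p n ω M k₁ hC hF5 hkω a ha (l i) (r i) (l i') (r i') (hr i) (hr i')
      (hd i i' hne) (hno i hi) (hno i' hi')
  · push Not at hcut
    obtain ⟨L, X, hLX, hX⟩ := hcut
    refine ⟨((L ∩ Vg : Finset V) : Set V), (X : Set V), ?_, ?_, ?_, ?_, ?_⟩
    · rw [Set.ncard_coe_finset]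
      exact hX
    · rw [Finset.disjoint_coe]
      exact hLX.dis.mono_left Finset.inter_subset_left
    · intro v hv
      obtain ⟨h1, h2⟩ := Finset.mem_inter.1 (Finset.mem_coe.1 hv)
      have h3 : v ∉ B := fun h => (Finset.disjoint_left.1 hLX.last h h1)
      rw [hB] at h3
      rcases (hVg _).1 h2 with h4 | h4
      · exact ⟨h4, by omega⟩
      · exact absurd h4 h3
    · intro v hv hva
      have h1 : v ∈ L ∪ X := hLX.head ((hA v).2 ⟨hv, hva⟩)
      rcases Finset.mem_union.1 h1 with h2 | h2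
      · exact Or.inl (Finset.mem_coe.2 (Finset.mem_inter.2 ⟨h2, (hVg v).2 (Or.inl hv)⟩))
      · exact Or.inr h2
    · intro u hu v hv huv
      obtain ⟨h1, h2⟩ := Finset.mem_inter.1 (Finset.mem_coe.1 hu)
      have h3 : v ∈ L ∪ X := hLX.far u h1 v ⟨huv, h2, (hVg v).2 hv⟩
      rcases Finset.mem_union.1 h3 with h4 | h4
      · exact Or.inl (Finset.mem_coe.2 (Finset.mem_inter.2 ⟨h4, (hVg v).2 hv⟩))
      · exact Or.inr h4

end Pool.Agent.MPd439b2.H3B
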