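import Pool.Agent.Lib.MP_d439b2_co.X3.H3B.NearP
import Pool.Agent.Lib.MP_d439b2_co.X3.H3N.Za
import Pool.Agent.Lib.MP_d439b2_co.H3.Pr

/-!
# MP_d439b2_co, X3/H3B, NearK: near patterns, (9) of note 2954 of helper22 (helper12)
-/

set_option autoImplicit false

namespace Pool.Agent.MPd439b2.X3.H3B

open Pool.Agent.MPd439b2 Pool.Agent.MPd439b2.BU Pool.Agent.MPd439b2.HC Pool.Agent.MPd439b2.X3.H3G
open Pool.Agent.MPd439b2.Rep

namespace NearX

/-- the half graph with a clique: Z-alpha -/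
theorem za {V : Type} [Finite V] {G : SimpleGraph V} (hF : H3T.Fr3 G) (hP : H3.Prm G) {n : ℕ}
    {t p : ℕ → V} {ω M k₁ a : ℕ} (hB : Bs G n t p ω M k₁) (ha : 3 ≤ a) (haM : a + 37 ≤ M)
    {x y : ℕ → V} (hx : ∀ i < 5, x i ∈ WH G n t p ω M a (a + 32))
    (hy : ∀ i < 5, y i ∈ WL G n t p ω M (a + 1) (a + 33))
    (hxx : ∀ i < 5, ∀ j < 5, i ≠ j → G.Adj (x i) (x j)) (hyy : ∀ i < 5, ∀ j < 5, i ≠ j → G.Adj (y i) (y j))
    (hxy : ∀ i < 5, ∀ j < 5, (G.Adj (x i) (y j) ↔ i ≤ j)) (hne : ∀ i < 5, ∀ j < 5, x i ≠ y j) :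
    False := by
  have hω := hB.hω
  obtain ⟨b, rfl⟩ : ∃ b, a = b + 3 := ⟨a - 3, by omega⟩
  have fin := zn_fin ω (b + 1)
  have hz : ∀ i < 5, {k | k ∈ zn ω (b + 1) ∧ ¬ (LU G t p (x i) k ∧ LU G t p (y i) k)}.ncard ≤ 1 + 1 := by
    intro i hi
    have h1 : b + 3 ≤ qz G t p ω M (x i) := (hx i hi).2.1
    have h2 : b + 3 + 1 ≤ qz G t p ω M (y i) := (hy i hi).2.1
    exact bad_and fin (qz_low (M := M) (by omega)) (qz_low (M := M) (by omega))
  obtain ⟨σ, s1, -⟩ := pickG (m := 1) fin (bad_all fin 5 hz) (by rw [zn_card]; omega)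
  obtain ⟨h0, h1⟩ := s1 0 (by omega)
  have hi0 : σ 0 < n := zn_lt hB.hM (by omega) h0
  have hq := qp_le hB.h hB.hM (by omega) (d := b + 1) h0.2 (by omega)
  obtain ⟨i, hi⟩ := H3N.pZa V G hF hP (fun i => x (i.val + 1)) (fun i => y i.val)
    (fun i j hij => hxx _ (by omega) _ (by omega) (fun h => hij (Fin.ext (by omega))))
    (fun i j hij => hyy _ (by omega) _ (by omega) (fun h => hij (Fin.ext h)))
    (fun i j => hne _ (by omega) _ (by omega))
    (fun i j => (hxy _ (by omega) _ (by omega)).trans (by omega)) (p (σ 0))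
  have hi4 := i.isLt
  rcases hi with hi | hi | hi | hi
  · have h3 : b + 3 ≤ qz G t p ω M (x (i.val + 1)) := (hx _ (by omega)).2.1
    rw [← hi] at h3
    omega
  · have h3 : b + 3 + 1 ≤ qz G t p ω M (y i.val) := (hy _ (by omega)).2.1
    rw [← hi] at h3
    omega
  · exact (h1 (i.val + 1) (by omega)).1.2 hi.symm
  · exact (h1 i.val (by omega)).2.2 hi.symm

end NearX

/-- **near patterns** -/
theorem nearK (hfr : ∀ {V : Type} {G : SimpleGraph V},
      Rep.Fr (F9.KF 3 3 ![{0}, {0, 1}, {1, 2}]) J4 G → H3T.Fr3 G)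
    (kJ : Kill (F9.KF 3 3 ![{0}, {0, 1}, {1, 2}]) J4 true true false)
    (kT : Kill (F9.KF 3 3 ![{0}, {0, 1}, {1, 2}]) J4 true false true)
    (kM : KillMod (F9.KF 3 3 ![{0}, {0, 1}, {1, 2}]) J4 true false false true true true) :
    S_Near := by
  intro m hm β ω k₁
  obtain ⟨c2, n2, h2⟩ := kJ β
  obtain ⟨c4, n4, h4⟩ := kT β
  obtain ⟨c5, n5, h5⟩ := kM m β
  obtain ⟨M0, hM0⟩ := nearP (max 5 (max m (max n2 (max n4 (max n5 (37 * ω + 2 * k₁ + 1))))))
  refine ⟨max c2 (max c4 c5), M0, fun V _ G hF hT hL hS hU n t p M a hB hmax ha haM hcl hHas => ?_⟩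
  have k2 := h2 V G hF (link_mono (by omega) hL)
  have k4 := h4 V G hF (link_mono (by omega) hL)
  have k0 : NoTP G m true false false := hT (true, false, false) rfl
  have k5 := h5 V G hF (link_mono (by omega) hL) k0
  have hω := hB.hω
  have hdis : Disjoint (WH G n t p ω M a (a + 32)) (WL G n t p ω M (a + 1) (a + 33)) := by
    rw [Set.disjoint_left]
    intro u hu hu'
    have h6 : qz G t p ω M u ≤ a + 32 := hu.2.2
    exact not_KL_KH hB.hM (by omega) hu'.1 hu.1 (by omega)
  have hcl' : ∀ u ∈ WH G n t p ω M a (a + 32), ∀ v ∈ WH G n t p ω M a (a + 32), u ≠ v →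
      G.Adj u v := fun u hu v hv => hcl u ⟨hu.1, hu.2.1, by have := hu.2.2; omega⟩ v
        ⟨hv.1, hv.2.1, by have := hv.2.2; omega⟩
  obtain ⟨x, y, hx, hy, hpat⟩ := hM0 V G _ _ hdis hcl' hHas
  rcases hpat with ⟨t', e', hTP⟩ | ⟨t', hne, hyy, hxy⟩
  · rcases t' with _ | _ <;> rcases e' with _ | _
    · exact k0 _ _ (hTP.mono (by omega))
    · exact k4 _ _ (hTP.mono (by omega))
    · exact k2 _ _ (hTP.mono (by omega))
    · exact k5 _ _ (hTP.mono (by omega))
  · have hxx : ∀ i < max 5 (max m (max n2 (max n4 (max n5 (37 * ω + 2 * k₁ + 1))))),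
        ∀ j < max 5 (max m (max n2 (max n4 (max n5 (37 * ω + 2 * k₁ + 1))))), i ≠ j →
          G.Adj (x i) (x j) := fun i hi j hj hij =>
      hcl' _ (hx i hi) _ (hx j hj) (hne i hi j hj hij).1
    rcases t' with _ | _
    · obtain ⟨n', t', p', h6, h7⟩ := Ins.insert hB ha haM (m' := 37 * ω + 2 * k₁ + 1) (h := x) (y := y)
        (fun i hi => ⟨(hx i (by omega)).1, (hx i (by omega)).2.1, by
          have := (hx i (by omega)).2.2; omega⟩) (fun i hi => hy i (by omega))
        ⟨fun i hi j hj hij => hxx i (by omega) j (by omega) hij, fun i hi j hj h8 => by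
          by_cases hij : i = j
          · rw [hij] at h8
            exact G.loopless.irrefl _ h8
          · exact absurd ((hyy i (by omega) j (by omega) hij).1 h8) (by decide),
        fun i hi j hj => hxy i (by omega) j (by omega)⟩
      have h8 := hmax n' t' p' h6
      omega
    · have hM := hB.hM
      have hn : 4 ≤ n := by
        have h6 : 1 * ω ≤ M * ω := Nat.mul_le_mul_right _ (by omega)
        omega
      have hcard : 4 ≤ Nat.card V := by
        have hinj : Function.Injective (fun i : Fin 4 => t i.val) := by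
          intro i j hij
          by_contra h6
          exact (hB.h.tt i.val (by omega) j.val (by omega) (fun h => h6 (Fin.ext h))).ne hij
        have := Nat.card_le_card_of_injective _ hinj
        rwa [Nat.card_fin] at this
      have hP := (H3.pfPr V G).1 hS hcard hU
      exact NearX.za (hfr hF) hP hB ha haM (fun i hi => hx i (by omega))
        (fun i hi => hy i (by omega)) (fun i hi j hj hij => hxx i (by omega) j (by omega) hij)
        (fun i hi j hj hij => (hyy i (by omega) j (by omega) hij).2 rfl)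
        (fun i hi j hj => hxy i (by omega) j (by omega)) fun i hi j hj h6 =>
          Set.disjoint_left.1 hdis (hx i (by omega)) (h6 ▸ hy j (by omega))

end Pool.Agent.MPd439b2.X3.H3B
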