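import Pool.Agent.Lib.MP_d439b2_co.X3.H3B.Ins
import Pool.Agent.Lib.MP_d439b2_co.W.RamC

/-!
# MP_d439b2_co, X3/H3B, NearP: typed patterns between a clique and a set (helper12)
-/

set_option autoImplicit false

namespace Pool.Agent.MPd439b2.X3.H3B

open Pool.Agent.MPd439b2 Pool.Agent.MPd439b2.BU Pool.Agent.MPd439b2.HC Pool.Agent.MPd439b2.X3.H3G
open Pool.Agent.MPd439b2.Rep

/-- one of the three patterns between a clique `A` and a set `B` contains a typed one; in the half graph `a i ~ b j` iff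
`i ≤ j` -/
theorem nearP (N : ℕ) : ∃ M : ℕ, ∀ (V : Type) (G : SimpleGraph V) (A B : Set V), Disjoint A B →
    (∀ u ∈ A, ∀ v ∈ A, u ≠ v → G.Adj u v) → Has3 G A B M →
    ∃ a b : ℕ → V, (∀ i < N, a i ∈ A) ∧ (∀ i < N, b i ∈ B) ∧
      ((∃ t e, TP G N true t e a b) ∨ (∃ t : Bool, (∀ i < N, ∀ j < N, i ≠ j → a i ≠ a j ∧ b i ≠ b j) ∧
        (∀ i < N, ∀ j < N, i ≠ j → (G.Adj (b i) (b j) ↔ t = true)) ∧
        ∀ i < N, ∀ j < N, (G.Adj (a i) (b j) ↔ i ≤ j))) := by
  obtain ⟨M, hM⟩ := W.ramC Bool (N + 2)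
  refine ⟨M, fun V G A B hAB hA hP => ?_⟩
  classical
  obtain ⟨a, b, hab⟩ := hP
  obtain ⟨σ, c, h1, h2, h3⟩ := hM fun i j => decide (G.Adj (b i) (b j))
  have hbb : ∀ k l, k < l → l < N + 2 → (G.Adj (b (σ k)) (b (σ l)) ↔ c = true) := by
    intro k l hkl hl
    rw [← h3 k l hkl hl]
    exact (decide_eq_true_iff).symm
  have hbb' : ∀ k < N + 2, ∀ l < N + 2, k ≠ l → (G.Adj (b (σ k)) (b (σ l)) ↔ c = true) := by
    intro k hk l hl hkl
    rcases lt_or_gt_of_ne hkl with h' | h'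
    · exact hbb k l h' hl
    · rw [SimpleGraph.adj_comm]
      exact hbb l k h' hk
  have hinj : ∀ k < N + 2, ∀ l < N + 2, k ≠ l → σ k ≠ σ l := by
    intro k hk l hl hkl
    rcases lt_or_gt_of_ne hkl with h' | h'
    · exact (h1 k l h' hl).ne
    · exact (h1 l k h' hk).ne'
  have hle : ∀ k < N + 2, ∀ l < N + 2, (σ k ≤ σ l ↔ k ≤ l) := by
    intro k hk l hl
    constructor
    · intro h
      by_contra h'
      exact absurd h (Nat.not_le.mpr (h1 l k (by omega) hk))
    · intro h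
      rcases Nat.lt_or_ge k l with h' | h'
      · exact (h1 k l h' hl).le
      · rw [le_antisymm h h']
  rcases hab with ⟨mA, mB, hr⟩ | ⟨mA, mB, hr⟩ | ⟨mA, mB, hr⟩
  · replace hr : ∀ i < M, ∀ j < M, (G.Adj (a i) (b j) ↔ i = j) := hr
    have ia : ∀ i < N + 2, ∀ j < N + 2, i ≠ j → a (σ i) ≠ a (σ j) := by
      intro i hi j hj hij h
      have h4 : G.Adj (a (σ i)) (b (σ i)) := (hr _ (h2 i hi) _ (h2 i hi)).2 rfl
      rw [h] at h4
      exact hinj i hi j hj hij ((hr _ (h2 j hj) _ (h2 i hi)).1 h4).symm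
    refine ⟨fun k => a (σ k), fun k => b (σ k), fun i hi => mA _ (h2 i (by omega)),
      fun i hi => mB _ (h2 i (by omega)), Or.inl ⟨c, false, TP.mono (show N ≤ N + 2 by omega) ?_⟩⟩
    refine ⟨fun i hi j hj h => ?_, ia, fun i hi j hj hij h => ?_, fun i hi j hj hij => ?_, hbb',
      fun i hi j hj => ?_⟩
    · exact Set.disjoint_left.mp hAB (mA _ (h2 i hi)) (h ▸ mB _ (h2 j hj))
    · have h4 : G.Adj (a (σ i)) (b (σ i)) := (hr _ (h2 i hi) _ (h2 i hi)).2 rfl
      have h5 := (hr _ (h2 i hi) _ (h2 j hj)).1 (by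
        rw [← show b (σ i) = b (σ j) from h]
        exact h4)
      exact hinj i hi j hj hij h5
    · exact iff_of_true (hA _ (mA _ (h2 i hi)) _ (mA _ (h2 j hj)) (ia i hi j hj hij)) rfl
    · show G.Adj (a (σ i)) (b (σ j)) ↔ _
      rw [hr _ (h2 i hi) _ (h2 j hj)]
      constructor
      · intro h4
        refine iff_of_true ?_ rfl
        by_contra h5
        exact hinj i hi j hj h5 h4
      · intro h4
        rw [h4.2 rfl]
  · replace hr : ∀ i < M, ∀ j < M, (G.Adj (a i) (b j) ↔ i ≠ j) := hr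
    have ia : ∀ i < N + 2, ∀ j < N + 2, i ≠ j → a (σ i) ≠ a (σ j) := by
      intro i hi j hj hij h
      have h4 : G.Adj (a (σ j)) (b (σ i)) := (hr _ (h2 j hj) _ (h2 i hi)).2
        (hinj j hj i hi (Ne.symm hij))
      rw [← h] at h4
      exact (hr _ (h2 i hi) _ (h2 i hi)).1 h4 rfl
    refine ⟨fun k => a (σ k), fun k => b (σ k), fun i hi => mA _ (h2 i (by omega)),
      fun i hi => mB _ (h2 i (by omega)), Or.inl ⟨c, true, TP.mono (show N ≤ N + 2 by omega) ?_⟩⟩
    refine ⟨fun i hi j hj h => ?_, ia, fun i hi j hj hij h => ?_, fun i hi j hj hij => ?_, hbb',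
      fun i hi j hj => ?_⟩
    · exact Set.disjoint_left.mp hAB (mA _ (h2 i hi)) (h ▸ mB _ (h2 j hj))
    · have h4 : G.Adj (a (σ i)) (b (σ j)) := (hr _ (h2 i hi) _ (h2 j hj)).2
        (hinj i hi j hj hij)
      have h5 := (hr _ (h2 i hi) _ (h2 i hi)).1 (by
        rw [show b (σ i) = b (σ j) from h]
        exact h4)
      exact h5 rfl
    · exact iff_of_true (hA _ (mA _ (h2 i hi)) _ (mA _ (h2 j hj)) (ia i hi j hj hij)) rfl
    · show G.Adj (a (σ i)) (b (σ j)) ↔ _
      rw [hr _ (h2 i hi) _ (h2 j hj)]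
      constructor
      · intro h4
        refine iff_of_false (fun h5 => h4 (by rw [h5])) (by decide)
      · intro h4 h5
        by_cases hij : i = j
        · exact absurd (h4.1 hij) (by decide)
        · exact hinj i hi j hj hij h5
  · replace hr : ∀ i < M, ∀ j < M, (G.Adj (a i) (b j) ↔ i ≤ j) := hr
    have ka : ∀ k l, k < l → l < N + 2 → a (σ k) ≠ a (σ l) := by
      intro k l hkl hl h'
      have h4 : G.Adj (a (σ k)) (b (σ k)) := (hr _ (h2 k (by omega)) _ (h2 k (by omega))).2 le_rfl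
      rw [h'] at h4
      have h5 := (hr _ (h2 l hl) _ (h2 k (by omega))).1 h4
      rw [hle l hl k (by omega)] at h5
      omega
    have kb : ∀ k l, k < l → l < N + 2 → b (σ k) ≠ b (σ l) := by
      intro k l hkl hl h'
      have h4 : G.Adj (a (σ l)) (b (σ l)) := (hr _ (h2 l hl) _ (h2 l hl)).2 le_rfl
      rw [← h'] at h4
      have h5 := (hr _ (h2 l hl) _ (h2 k (by omega))).1 h4
      rw [hle l hl k (by omega)] at h5
      omega
    refine ⟨fun k => a (σ k), fun k => b (σ k), fun i hi => mA _ (h2 i (by omega)),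
      fun i hi => mB _ (h2 i (by omega)), Or.inr ⟨c, fun i hi j hj hij => ?_,
        fun i hi j hj hij => hbb' i (by omega) j (by omega) hij, fun i hi j hj => ?_⟩⟩
    · rcases lt_or_gt_of_ne hij with h' | h'
      · exact ⟨ka i j h' (by omega), kb i j h' (by omega)⟩
      · exact ⟨(ka j i h' (by omega)).symm, (kb j i h' (by omega)).symm⟩
    · show G.Adj (a (σ i)) (b (σ j)) ↔ i ≤ j
      rw [hr _ (h2 i (by omega)) _ (h2 j (by omega)), hle i (by omega) j (by omega)]

end Pool.Agent.MPd439b2.X3.H3B
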