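import Pool.Agent.Lib.MP_d439b2_co.X3.H3B.Spec
import Pool.Agent.Lib.MP_d439b2_co.GT.Base

/-!
# MP_d439b2_co, X3/H3B, Pth: the paths of (8) of note 2954 of helper22
-/

set_option autoImplicit false

namespace Pool.Agent.MPd439b2.X3.H3B

open Pool.Agent.MPd439b2 Pool.Agent.MPd439b2.BU Pool.Agent.MPd439b2.HC Pool.Agent.MPd439b2.X3.H3G

variable {V : Type} {G : SimpleGraph V}

/-- an induced path from `Lo` to `Hi` in `U` -/
structure IP (G : SimpleGraph V) (Lo Hi U : Set V) (N : ℕ) (u : ℕ → V) : Prop where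
  head : u 0 ∈ Lo
  last : u N ∈ Hi
  mem : ∀ s, s ≤ N → u s ∈ U
  adj : ∀ s, s < N → G.Adj (u s) (u (s + 1))
  nadj : ∀ s r, s + 2 ≤ r → r ≤ N → ¬ G.Adj (u s) (u r)
  inj : ∀ s r, s < r → r ≤ N → u s ≠ u r
  hi : ∀ s, s < N → u s ∉ Hi

theorem exIP {Lo Hi U : Set V} {n : ℕ} {p : ℕ → V} (h0 : p 0 ∈ Lo) (h1 : p n ∈ Hi)
    (h2 : ∀ s, s ≤ n → p s ∈ U) (h3 : ∀ s, s < n → G.Adj (p s) (p (s + 1))) :
    ∃ N u, IP G Lo Hi U N u := by
  classical
  have hex : ∃ n, ∃ p : ℕ → V, p 0 ∈ Lo ∧ p n ∈ Hi ∧ (∀ s, s ≤ n → p s ∈ U) ∧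
      ∀ s, s < n → G.Adj (p s) (p (s + 1)) := ⟨n, p, h0, h1, h2, h3⟩
  obtain ⟨u, a0, a1, a2, a3⟩ := Nat.find_spec hex
  have hmin := fun m => Nat.find_min' hex (m := m)
  generalize Nat.find hex = N at a1 a2 a3 hmin
  refine ⟨N, u, a0, a1, a2, a3, fun s r hsr hr hadj => ?_, fun s r hsr hr heq => ?_, fun s hs hu => ?_⟩
  · obtain ⟨k, hk⟩ : ∃ k, k = r - s - 1 := ⟨_, rfl⟩
    have h4 := hmin (N - k) ⟨fun x => if x ≤ s then u x else u (x + k), ?_, ?_, ?_, ?_⟩
    · omega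
    · show (if 0 ≤ s then u 0 else u (0 + k)) ∈ Lo
      rw [if_pos (Nat.zero_le s)]
      exact a0
    · show (if N - k ≤ s then u (N - k) else u (N - k + k)) ∈ Hi
      rw [if_neg (by omega), Nat.sub_add_cancel (by omega)]
      exact a1
    · intro x hx
      show (if x ≤ s then u x else u (x + k)) ∈ U
      split
      · exact a2 x (by omega)
      · exact a2 (x + k) (by omega)
    · intro x hx
      show G.Adj (if x ≤ s then u x else u (x + k)) (if x + 1 ≤ s then u (x + 1) else u (x + 1 + k))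
      by_cases h5 : x + 1 ≤ s
      · rw [if_pos h5, if_pos (by omega)]
        exact a3 x (by omega)
      · rw [if_neg h5]
        by_cases h6 : x ≤ s
        · rw [if_pos h6, show x = s by omega, show s + 1 + k = r by omega]
          exact hadj
        · rw [if_neg h6, show x + 1 + k = x + k + 1 by omega]
          exact a3 (x + k) (by omega)
  · obtain ⟨k, hk⟩ : ∃ k, k = r - s := ⟨_, rfl⟩
    have h4 := hmin (N - k) ⟨fun x => if x ≤ s then u x else u (x + k), ?_, ?_, ?_, ?_⟩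
    · omega
    · show (if 0 ≤ s then u 0 else u (0 + k)) ∈ Lo
      rw [if_pos (Nat.zero_le s)]
      exact a0
    · show (if N - k ≤ s then u (N - k) else u (N - k + k)) ∈ Hi
      by_cases h5 : N - k ≤ s
      · rw [if_pos h5, show N - k = s by omega, heq, show r = N by omega]
        exact a1
      · rw [if_neg h5, Nat.sub_add_cancel (by omega)]
        exact a1
    · intro x hx
      show (if x ≤ s then u x else u (x + k)) ∈ U
      split
      · exact a2 x (by omega)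
      · exact a2 (x + k) (by omega)
    · intro x hx
      show G.Adj (if x ≤ s then u x else u (x + k)) (if x + 1 ≤ s then u (x + 1) else u (x + 1 + k))
      by_cases h5 : x + 1 ≤ s
      · rw [if_pos h5, if_pos (by omega)]
        exact a3 x (by omega)
      · rw [if_neg h5]
        by_cases h6 : x ≤ s
        · rw [if_pos h6, show x = s by omega, heq, show s + 1 + k = r + 1 by omega]
          exact a3 r (by omega)
        · rw [if_neg h6, show x + 1 + k = x + k + 1 by omega]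
          exact a3 (x + k) (by omega)
  · have h4 := hmin s ⟨u, a0, hu, fun x hx => a2 x (by omega), fun x hx => a3 x (by omega)⟩
    omega

/-- the data of a path -/
structure PD (G : SimpleGraph V) (n : ℕ) (t p : ℕ → V) (ω M a N : ℕ) (u : ℕ → V) : Prop where
  q0 : qz G t p ω M (u 0) ≤ a
  qN : a + 33 ≤ qz G t p ω M (u N)
  kl : ∀ s, s < N → KL G n t p ω M (u s)
  adj : ∀ s, s < N → G.Adj (u s) (u (s + 1))
  nadj : ∀ s r, s + 2 ≤ r → r ≤ N → ¬ G.Adj (u s) (u r)
  inj : ∀ s r, s < r → r ≤ N → u s ≠ u r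

/-- the first vertex with `q > a + 4 * j` -/
noncomputable def fi (G : SimpleGraph V) (t p : ℕ → V) (ω M a : ℕ) (u : ℕ → V) (j : ℕ) : ℕ :=
  sInf {s | a + 4 * j < qz G t p ω M (u s)}

variable {n : ℕ} {t p : ℕ → V} {ω M a N : ℕ} {u : ℕ → V}

theorem PD.spec (h : PD G n t p ω M a N u) {j : ℕ} (hj : j ≤ 8) :
    a + 4 * j < qz G t p ω M (u (fi G t p ω M a u j)) :=
  Nat.sInf_mem (s := {s | a + 4 * j < qz G t p ω M (u s)}) ⟨N, by
    have h1 := h.qN
    show a + 4 * j < _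
    omega⟩

theorem PD.le (h : PD G n t p ω M a N u) {j : ℕ} (hj : j ≤ 8) : fi G t p ω M a u j ≤ N :=
  Nat.sInf_le (by
    have h1 := h.qN
    show a + 4 * j < _
    omega)

theorem fi_lt {j s : ℕ} (hs : s < fi G t p ω M a u j) : qz G t p ω M (u s) ≤ a + 4 * j := by
  by_contra hc
  exact Nat.notMem_of_lt_sInf hs (show a + 4 * j < _ by omega)

theorem PD.mono (h : PD G n t p ω M a N u) {j : ℕ} (hj : j + 1 ≤ 8) :
    fi G t p ω M a u j ≤ fi G t p ω M a u (j + 1) := by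
  have h1 := h.spec hj
  exact Nat.sInf_le (show a + 4 * j < _ by omega)

theorem PD.pos (h : PD G n t p ω M a N u) {j : ℕ} (hj : j ≤ 8) : 0 < fi G t p ω M a u j := by
  by_contra hc
  have h1 := h.spec hj
  rw [show fi G t p ω M a u j = 0 by omega] at h1
  have h2 := h.q0
  omega

/-- a jump gives a crossing edge -/
theorem PD.jump (h : PD G n t p ω M a N u) {j : ℕ} (hj : j ≤ 8) :
    ∃ x, KL G n t p ω M x ∧ qz G t p ω M x ≤ a + 4 * j ∧ G.Adj x (u (fi G t p ω M a u j)) := by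
  have h1 := h.pos hj
  have h2 := h.le hj
  refine ⟨u (fi G t p ω M a u j - 1), h.kl _ (by omega), fi_lt (by omega), ?_⟩
  have h3 := h.adj (fi G t p ω M a u j - 1) (by omega)
  rwa [Nat.sub_add_cancel h1] at h3

/-- no jump -/
theorem PD.lt (h : PD G n t p ω M a N u) {j : ℕ} (hj : j < 8)
    (hn : qz G t p ω M (u (fi G t p ω M a u j)) ≤ a + 4 * (j + 1)) :
    fi G t p ω M a u j < fi G t p ω M a u (j + 1) := by
  have h1 := h.mono (j := j) (by omega)
  have h2 := h.spec (j := j + 1) (by omega)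
  rcases h1.lt_or_eq with h3 | h3
  · exact h3
  · rw [← h3] at h2
    omega

/-- the parts -/
def pt (G : SimpleGraph V) (t p : ℕ → V) (ω M a : ℕ) (u : ℕ → V) (i : ℕ) : Set V :=
  {v | ∃ s, fi G t p ω M a u (2 * i) ≤ s ∧ s < fi G t p ω M a u (2 * i + 2) ∧ u s = v}

/-- the conditions on the vertices `t j` -/
structure TD (G : SimpleGraph V) (n : ℕ) (t p : ℕ → V) (ω M a : ℕ) (τ : ℕ → ℕ) : Prop where
  mem : ∀ j < 5, τ j ∈ zn ω (a + 8 * j + 2)
  mis : ∀ j < 5, ∀ y, KL G n t p ω M y → qz G t p ω M y ≤ a + 8 * j → ¬ G.Adj (t (τ j)) y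

/-- all conditions of `slow` for one path -/
structure SC (G : SimpleGraph V) (T : ℕ → V) (A : ℕ → Set V) : Prop where
  c : ∀ i < 4, Conn G (A i)
  d : ∀ i < 4, ∀ j < i, Disjoint (A i) (A j)
  m : ∀ i < 4, ∀ j < 5, T j ∉ A i
  t : ∀ i < 4, ∀ j < 5, (Tch G (A i) {T j} ↔ j ≤ i)
  p : ∀ i < 4, ∀ j < i, (Tch G (A i) (A j) ↔ i = j + 1)

theorem PD.sc {k₁ : ℕ} (hB : Bs G n t p ω M k₁) (ha : a + 40 ≤ M) {τ : ℕ → ℕ}
    (hT : TD G n t p ω M a τ) (h : PD G n t p ω M a N u)
    (hn : ∀ j < 8, qz G t p ω M (u (fi G t p ω M a u j)) ≤ a + 4 * (j + 1)) :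
    SC G (fun j => t (τ j)) (pt G t p ω M a u) := by
  classical
  have hω : 60 ≤ ω := by
    have := hB.hω
    omega
  have lt1 : ∀ j < 8, fi G t p ω M a u j < fi G t p ω M a u (j + 1) := fun j hj => h.lt hj (hn j hj)
  have lt : ∀ i j, i < j → j ≤ 8 → fi G t p ω M a u i < fi G t p ω M a u j := by
    intro i j hij
    induction j, hij using Nat.le_induction with
    | base => exact fun h1 => lt1 i (by omega)
    | succ j _ ih => exact fun h1 => (ih (by omega)).trans (lt1 j (by omega))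
  have le8 : ∀ j ≤ 8, fi G t p ω M a u j ≤ N := fun j hj => h.le hj
  have kl : ∀ i < 4, ∀ v ∈ pt G t p ω M a u i, KL G n t p ω M v ∧ qz G t p ω M v ≤ a + 8 * i + 8 := by
    rintro i hi v ⟨s, h1, h2, rfl⟩
    have h3 := le8 (2 * i + 2) (by omega)
    have h4 := fi_lt h2
    exact ⟨h.kl s (by omega), by omega⟩
  have τn : ∀ j < 5, τ j < n := fun j hj => zn_lt hB.hM (by omega) (hT.mem j hj)
  have qτ : ∀ j < 5, qz G t p ω M (t (τ j)) ≤ a + 8 * j + 3 := fun j hj =>
    qt_le hB.h hB.hM hω (d := a + 8 * j + 2) (hT.mem j hj).2 (by omega)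
  have hτ : ∀ j < 5, KH G n t p ω M (t (τ j)) := fun j hj => KH_t hB.h (τn j hj) (by
    have := qτ j hj
    omega)
  refine ⟨fun i hi => ?_, fun i hi j hj => ?_, fun i hi j hj h1 => ?_, fun i hi j hj => ?_,
    fun i hi j hj => ?_⟩
  · have h1 : pt G t p ω M a u i = (GT.seg u (fi G t p ω M a u (2 * i))
        (fi G t p ω M a u (2 * i + 2)) : Finset V) := by
      ext v
      rw [Finset.mem_coe, GT.mem_seg]
      rfl
    rw [h1]
    refine GT.conn_seg (lt _ _ (by omega) (by omega)) fun s h2 h3 => h.adj s ?_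
    have h4 := le8 (2 * i + 2) (by omega)
    omega
  · rw [Set.disjoint_left]
    rintro v ⟨s, h1, h2, rfl⟩ ⟨r, h3, h4, h5⟩
    have h6 := le8 (2 * i + 2) (by omega)
    have h7 : fi G t p ω M a u (2 * j + 2) ≤ fi G t p ω M a u (2 * i) := by
      rcases Nat.eq_or_lt_of_le (show 2 * j + 2 ≤ 2 * i by omega) with h8 | h8
      · rw [h8]
      · exact (lt _ _ h8 (by omega)).le
    exact h.inj r s (by omega) (by omega) h5
  · have h2 := qτ j hj
    exact not_KL_KH hB.hM hω (kl i hi _ h1).1 (hτ j hj) (by omega)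
  · constructor
    · rintro ⟨v, hv, w, hw, hvw⟩
      rw [Set.mem_singleton_iff] at hw
      subst hw
      by_contra h1
      have h2 := kl i hi v hv
      exact hT.mis j hj v h2.1 (by omega) hvw.symm
    · intro hji
      have h1 := h.spec (j := 2 * i + 1) (by omega)
      refine ⟨u (fi G t p ω M a u (2 * i + 1)), ⟨_, (lt _ _ (by omega) (by omega)).le,
        lt _ _ (by omega) (by omega), rfl⟩, t (τ j), rfl, ?_⟩
      have h2 := qτ j hj
      exact (adj_F2 hB.hG hB.h hB.hM hω (hτ j hj) (by omega)).symm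
  · constructor
    · rintro ⟨v, ⟨s, h1, h2, rfl⟩, w, ⟨r, h3, h4, rfl⟩, hvw⟩
      by_contra hij
      have h6 := le8 (2 * i + 2) (by omega)
      have h7 := lt (2 * j + 2) (2 * j + 3) (by omega) (by omega)
      have h8 := lt (2 * j + 3) (2 * i) (by omega) (by omega)
      exact h.nadj r s (by omega) (by omega) hvw.symm
    · intro hij
      subst hij
      have h1 := h.pos (j := 2 * (j + 1)) (by omega)
      have h2 := lt (2 * j) (2 * (j + 1)) (by omega) (by omega)
      have h3 := le8 (2 * (j + 1)) (by omega)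
      have h4 := h.adj (fi G t p ω M a u (2 * (j + 1)) - 1) (by omega)
      rw [Nat.sub_add_cancel h1] at h4
      exact ⟨_, ⟨fi G t p ω M a u (2 * (j + 1)), le_rfl, lt _ _ (by omega) (by omega), rfl⟩, _,
        ⟨fi G t p ω M a u (2 * (j + 1)) - 1, by omega, by
          show _ < fi G t p ω M a u (2 * (j + 1))
          omega, rfl⟩, h4.symm⟩

/-- good indices -/
theorem exTD {k₁ : ℕ} (hB : Bs G n t p ω M k₁) (ha : a + 40 ≤ M) : ∃ τ, TD G n t p ω M a τ := by
  have key : ∀ d, d + 2 < M → ∃ i, i ∈ zn ω (d + 2) ∧ ∀ y, KL G n t p ω M y →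
      qz G t p ω M y ≤ d → ¬ G.Adj (t i) y := by
    intro d hd
    by_contra hc
    push Not at hc
    have hω := hB.hω
    have h1 : ∀ b, ∃ y, b < k₁ → (KL G n t p ω M y ∧ qz G t p ω M y ≤ d ∧
        G.Adj (t ((d + 2) * ω + b)) y) := by
      intro b
      by_cases hb : b < k₁
      · obtain ⟨y, h2⟩ := hc ((d + 2) * ω + b) ⟨by omega, by
          rw [Nat.add_mul (d + 2) 1]
          omega⟩
        exact ⟨y, fun _ => h2⟩
      · exact ⟨t 0, fun h2 => absurd h2 hb⟩
    choose x hx using h1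
    have hlt : ∀ b < k₁, (d + 2) * ω + b < n := fun b hb => zn_lt hB.hM hd ⟨by omega, by
      rw [Nat.add_mul (d + 2) 1]
      omega⟩
    refine hB.ce (zn ω (d + 1)) (fun i hi => zn_lt hB.hM (by omega) hi) (by
      rw [zn_card]
      omega) x (fun b => t ((d + 2) * ω + b)) (fun b hb => (hx b hb).2.2.symm)
      (fun b hb c hc' hbc => (hB.h.tt _ (hlt b hb) _ (hlt c hc') (by omega)).ne)
      (fun b hb => (hx b hb).1.zone hB.hM (by
        have := (hx b hb).2.1
        omega) (by omega)) (fun b hb => ?_)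
    have h2 : {k | k ∈ zn ω (d + 1) ∧ ¬ LU G t p (t ((d + 2) * ω + b)) k} = ∅ := by
      rw [Set.eq_empty_iff_forall_notMem]
      rintro k ⟨h3, h4⟩
      have h5 : k < (d + 2) * ω := h3.2
      exact h4 (t_LU hB.h (hlt b hb) (by omega))
    show {k | k ∈ zn ω (d + 1) ∧ ¬ LU G t p (t ((d + 2) * ω + b)) k}.ncard ≤ 1
    rw [h2, Set.ncard_empty]
    omega
  have h1 : ∀ j, ∃ i, j < 5 → (i ∈ zn ω (a + 8 * j + 2) ∧ ∀ y, KL G n t p ω M y →
      qz G t p ω M y ≤ a + 8 * j → ¬ G.Adj (t i) y) := by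
    intro j
    by_cases hj : j < 5
    · obtain ⟨i, hi⟩ := key (a + 8 * j) (by omega)
      exact ⟨i, fun _ => hi⟩
    · exact ⟨0, fun h2 => absurd h2 hj⟩
  choose τ hτ using h1
  exact ⟨τ, fun j hj => (hτ j hj).1, fun j hj => (hτ j hj).2⟩

/-- two paths without jumps -/
theorem two_slow {k₁ : ℕ} (hB : Bs G n t p ω M k₁) (ha : a + 40 ≤ M) {N' : ℕ} {u' : ℕ → V}
    (h : PD G n t p ω M a N u) (h' : PD G n t p ω M a N' u')
    (hn : ∀ j < 8, qz G t p ω M (u (fi G t p ω M a u j)) ≤ a + 4 * (j + 1))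
    (hn' : ∀ j < 8, qz G t p ω M (u' (fi G t p ω M a u' j)) ≤ a + 4 * (j + 1))
    (hd : ∀ s, s ≤ N → ∀ r, r ≤ N' → u s ≠ u' r) : False := by
  obtain ⟨τ, hT⟩ := exTD hB ha
  have s1 := h.sc hB ha hT hn
  have s2 := h'.sc hB ha hT hn'
  have τn : ∀ j < 5, τ j < n := fun j hj => zn_lt hB.hM (by omega) (hT.mem j hj)
  refine slow hB.hG (t := fun j => t (τ j)) (fun i hi j hj => ?_) s1.c s2.c s1.d s2.d
    (fun i hi j hj => ?_) s1.m s2.m s1.t s2.t s1.p s2.p
  · refine hB.h.tt _ (τn i hi) _ (τn j (by omega)) ?_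
    have h1 := (hT.mem i hi).1
    have h2 := (hT.mem j (by omega)).2
    have h3 : (a + 8 * j + 2 + 1) * ω ≤ (a + 8 * i + 2) * ω := Nat.mul_le_mul_right _ (by omega)
    omega
  · rw [Set.disjoint_left]
    rintro v ⟨s, h1, h2, rfl⟩ ⟨r, h3, h4, h5⟩
    have h6 := h'.le (j := 2 * i + 2) (by omega)
    have h7 := h.le (j := 2 * j + 2) (by omega)
    exact hd r (by omega) s (by omega) h5

end Pool.Agent.MPd439b2.X3.H3B
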