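import Pool.Agent.Lib.MP_d439b2_co.X3.H3G.PT

/-!
# MP_d439b2_co, X3/H3B, Slow: two slow paths (note 2954 of helper22, (7)), without `K3:0,01,12`

`t 0, .., t 4` a clique, `A 0, .., A 3` and `B 0, .., B 3` disjoint connected sets, `A i` touches `A (i + 1)` and no other
`A j`, `t j` touches `A i` iff `j ≤ i`, the same for `B`; the sets `A i`, `B j` are arbitrary to each other.
-/

set_option autoImplicit false

namespace Pool.Agent.MPd439b2.X3.H3B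

open Pool.Agent.MPd439b2 Pool.Agent.MPd439b2.BU Pool.Agent.MPd439b2.HC Pool.Agent.MPd439b2.X3.H3G

/-- the known pairs -/
def msS : List ℕ := [0, 1, 3, 7, 15, 31, 63, 127, 255, 31, 543, 1567, 3615]

/-- their values -/
def vsS : List ℕ := [0, 1, 3, 7, 15, 1, 35, 71, 143, 1, 515, 1031, 2063]

/-- the decision tree -/
def ptS : PT :=
  (.n 11 5 (.n 12 5 (.n 9 7 (.n 9 8 (.n 10 6 (.n 10 7 (.n 10 8 (.n 11 7 (.n 11 8 (.n 11 6 (.n 12
  6 (.n 12 7 (.n 12 8 (.l [[11,12,3],[2],[8],[10],[4],[7]]) (.l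
  [[11,12,3],[2],[8],[10],[4],[7]])) (.l [[12,7],[2],[3],[6],[11],[4]])) (.l
  [[12],[2],[3],[6],[11],[4]])) (.l [[6],[1],[7],[5],[11],[8]])) (.l
  [[11,8],[2],[3],[10],[7],[4]])) (.n 11 8 (.n 11 6 (.l [[7],[2],[8],[6],[11],[3]]) (.l
  [[2],[7],[11],[4],[8],[6]])) (.l [[11,8],[2],[3],[10],[7],[4]]))) (.l
  [[8],[2],[3],[10],[7],[4]])) (.n 10 8 (.n 9 6 (.l [[10,7],[1],[8],[9],[6],[3]]) (.n 12 6 (.n 10
  5 (.l [[7,6],[1],[2],[5],[10],[4]]) (.n 12 7 (.n 11 7 (.l [[10],[1],[11],[9],[7],[12]]) (.l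
  [[2],[11],[7],[4],[12],[10]])) (.l [[1],[7,6],[10],[4],[12],[5]]))) (.n 12 7 (.l
  [[6],[1],[12],[9],[7],[3]]) (.l [[7],[12],[2],[10],[6],[3]])))) (.l
  [[7],[8],[2],[6],[10],[3]]))) (.n 9 6 (.n 11 6 (.l [[11,10],[1],[2],[9],[6],[4]]) (.l
  [[11,10],[1],[2],[9],[6],[4]])) (.n 11 6 (.l [[1],[10],[6],[3],[11],[9]]) (.n 10 5 (.l
  [[11,6],[1],[2],[5],[10],[4]]) (.n 10 7 (.l [[1],[6],[10],[3],[7],[5]]) (.n 10 8 (.n 12 6 (.n
  11 7 (.n 12 7 (.l [[10],[1],[11],[9],[7],[12]]) (.l [[1],[7,6],[10],[4],[12],[5]])) (.n 11 8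
  (.l [[2],[7],[11],[4],[8],[6]]) (.l [[1],[11,10],[6],[4],[8],[9]]))) (.l
  [[1],[6],[10],[4],[12],[5]])) (.l [[1],[10],[6],[4],[8],[9]]))))))) (.l
  [[8],[1],[3],[9],[7],[4]])) (.n 9 6 (.l [[7],[1],[2],[9],[6],[4]]) (.n 9 8 (.l
  [[1],[7],[6],[4],[8],[9]]) (.n 11 8 (.n 11 7 (.l [[2],[8],[7],[11],[3],[9]]) (.l
  [[2],[7],[8],[4],[11],[9]])) (.l [[8],[2],[3],[9],[11],[4]]))))) (.l
  [[12],[2],[3],[5],[11],[4]])) (.n 10 5 (.l [[11],[1],[2],[5],[10],[4]]) (.n 12 5 (.l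
  [[1],[11],[10],[4],[12],[5]]) (.n 12 7 (.n 11 7 (.l [[1],[12],[11],[7],[3],[5]]) (.l
  [[1],[11],[12],[4],[7],[5]])) (.l [[12],[1],[3],[5],[7],[4]])))))

theorem tabS : ptS.chk 13 6 r3 msS vsS = true := by
  decide +kernel

theorem b1 : ∀ i < 5, ∀ j < i, (vsS.getD i 0).testBit j = true := by decide

theorem b2 : ∀ i < 4, ∀ j < 5, ((vsS.getD (5 + i) 0).testBit j = true ↔ j ≤ i) := by decide

theorem b3 : ∀ i < 4, ∀ j < 5, ((vsS.getD (9 + i) 0).testBit j = true ↔ j ≤ i) := by decide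

theorem b4 : ∀ i < 4, ∀ j < i, ((vsS.getD (5 + i) 0).testBit (5 + j) = true ↔ i = j + 1) := by decide

theorem b5 : ∀ i < 4, ∀ j < i, ((vsS.getD (9 + i) 0).testBit (9 + j) = true ↔ i = j + 1) := by decide

theorem b6 : ∀ i < 4, ∀ j < 4, (msS.getD (9 + i) 0).testBit (5 + j) = false := by decide

/-- **two slow paths** -/
theorem slow {V : Type} {G : SimpleGraph V} (hG : SPF G Set.univ 6 r3) {t : ℕ → V}
    {A B : ℕ → Set V} (tt : ∀ i < 5, ∀ j < i, G.Adj (t i) (t j)) (cA : ∀ i < 4, Conn G (A i))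
    (cB : ∀ i < 4, Conn G (B i)) (dA : ∀ i < 4, ∀ j < i, Disjoint (A i) (A j))
    (dB : ∀ i < 4, ∀ j < i, Disjoint (B i) (B j)) (dBA : ∀ i < 4, ∀ j < 4, Disjoint (B i) (A j))
    (tA : ∀ i < 4, ∀ j < 5, t j ∉ A i) (tB : ∀ i < 4, ∀ j < 5, t j ∉ B i)
    (aA : ∀ i < 4, ∀ j < 5, (Tch G (A i) {t j} ↔ j ≤ i))
    (aB : ∀ i < 4, ∀ j < 5, (Tch G (B i) {t j} ↔ j ≤ i))
    (pA : ∀ i < 4, ∀ j < i, (Tch G (A i) (A j) ↔ i = j + 1))
    (pB : ∀ i < 4, ∀ j < i, (Tch G (B i) (B j) ↔ i = j + 1)) : False := by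
  let S : ℕ → Set V := fun i => if i < 5 then {t i} else if i < 9 then A (i - 5) else B (i - 9)
  have s0 : ∀ i < 5, S i = {t i} := fun i hi => if_pos hi
  have s1 : ∀ i < 4, S (5 + i) = A i := fun i hi => by
    show (if 5 + i < 5 then _ else if 5 + i < 9 then A (5 + i - 5) else _) = _
    rw [if_neg (by omega), if_pos (by omega), Nat.add_sub_cancel_left]
  have s2 : ∀ i < 4, S (9 + i) = B i := fun i hi => by
    show (if 9 + i < 5 then _ else if 9 + i < 9 then _ else B (9 + i - 9)) = _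
    rw [if_neg (by omega), if_neg (by omega), Nat.add_sub_cancel_left]
  have sp : ∀ i < 13, i < 5 ∨ (∃ k < 4, i = 5 + k) ∨ ∃ k < 4, i = 9 + k := by
    intro i hi
    by_cases h5 : i < 5
    · exact Or.inl h5
    · by_cases h9 : i < 9
      · exact Or.inr (Or.inl ⟨i - 5, by omega, by omega⟩)
      · exact Or.inr (Or.inr ⟨i - 9, by omega, by omega⟩)
  refine PT.use (S := S) ptS tabS hG rfl rfl (fun _ _ => Set.subset_univ _) ?_ ?_ ?_
  · intro i hi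
    rcases sp i hi with h | ⟨k, hk, rfl⟩ | ⟨k, hk, rfl⟩
    · rw [s0 i h]
      exact Conn.singleton G _
    · rw [s1 k hk]
      exact cA k hk
    · rw [s2 k hk]
      exact cB k hk
  · intro i hi j hj
    rcases sp i hi with h | ⟨k, hk, rfl⟩ | ⟨k, hk, rfl⟩
    · rw [s0 i h, s0 j (by omega)]
      exact Set.disjoint_singleton.2 (tt i h j hj).ne
    · rw [s1 k hk]
      rcases sp j (by omega) with h' | ⟨l, hl, rfl⟩ | ⟨l, hl, rfl⟩
      · rw [s0 j h']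
        exact Set.disjoint_singleton_right.2 (tA k hk j h')
      · rw [s1 l hl]
        exact dA k hk l (by omega)
      · omega
    · rw [s2 k hk]
      rcases sp j (by omega) with h' | ⟨l, hl, rfl⟩ | ⟨l, hl, rfl⟩
      · rw [s0 j h']
        exact Set.disjoint_singleton_right.2 (tB k hk j h')
      · rw [s1 l hl]
        exact dBA k hk l hl
      · rw [s2 l hl]
        exact dB k hk l (by omega)
  · intro i hi j hj hb
    rcases sp i hi with h | ⟨k, hk, rfl⟩ | ⟨k, hk, rfl⟩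
    · rw [s0 i h, s0 j (by omega), tch_single]
      exact iff_of_true (tt i h j hj) (b1 i h j hj)
    · rw [s1 k hk]
      rcases sp j (by omega) with h' | ⟨l, hl, rfl⟩ | ⟨l, hl, rfl⟩
      · rw [s0 j h', aA k hk j h', b2 k hk j h']
      · rw [s1 l hl, pA k hk l (by omega), b4 k hk l (by omega)]
      · omega
    · rw [s2 k hk]
      rcases sp j (by omega) with h' | ⟨l, hl, rfl⟩ | ⟨l, hl, rfl⟩
      · rw [s0 j h', aB k hk j h', b3 k hk j h']
      · rw [b6 k hk l hl] at hb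
        exact absurd hb Bool.false_ne_true
      · rw [s2 l hl, pB k hk l (by omega), b5 k hk l (by omega)]

end Pool.Agent.MPd439b2.X3.H3B
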