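import Pool.Agent.Lib.MP_d439b2_co.X3.H3B.Zone
import Pool.Agent.Lib.MP_d439b2_co.X3.H3B.Cross
import Pool.Agent.Lib.MP_d439b2_co.X3.H3B.Slow
import Pool.Agent.Lib.MP_d439b2_co.X3.H3O.Defs
import Pool.Agent.Lib.MP_d439b2_co.Rep.Pat3

/-!
# MP_d439b2_co, X3/H3B, Spec: statements of the parts (6), (8), (9) of note 2954 of helper22

`Hg G n t p`: half graph (Wd); `qz`, `KL`, `KH`: Zone; `CE` is the conclusion of `cross` (Cross).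
-/

set_option autoImplicit false

namespace Pool.Agent.MPd439b2.X3.H3B

open Pool.Agent.MPd439b2 Pool.Agent.MPd439b2.BU Pool.Agent.MPd439b2.HC Pool.Agent.MPd439b2.X3.H3G
open Pool.Agent.MPd439b2.Rep

/-- fewer than `k₁` crossing edges over every set `I` of `40` indices -/
def CE {V : Type} (G : SimpleGraph V) (n : ℕ) (t p : ℕ → V) (k₁ : ℕ) : Prop :=
  ∀ I : Set ℕ, (∀ i ∈ I, i < n) → 40 ≤ I.ncard → ∀ x z : ℕ → V,
    (∀ a < k₁, G.Adj (x a) (z a)) → (∀ a < k₁, ∀ b < k₁, a ≠ b → z a ≠ z b) →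
    (∀ a < k₁, {k | k ∈ I ∧ ¬ LL G t p (x a) k}.ncard ≤ 7) →
    (∀ a < k₁, {k | k ∈ I ∧ ¬ LU G t p (z a) k}.ncard ≤ 1) → False

/-- the situation -/
structure Bs {V : Type} (G : SimpleGraph V) (n : ℕ) (t p : ℕ → V) (ω M k₁ : ℕ) : Prop where
  hG : SPF G Set.univ 6 r3
  h : Hg G n t p
  hM : M * ω ≤ n
  hω : 60 + 2 * k₁ ≤ ω
  ce : CE G n t p k₁

/-- class `H`, `a ≤ q ≤ b` -/
def WH {V : Type} (G : SimpleGraph V) (n : ℕ) (t p : ℕ → V) (ω M a b : ℕ) : Set V :=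
  {u | KH G n t p ω M u ∧ a ≤ qz G t p ω M u ∧ qz G t p ω M u ≤ b}

/-- class `L`, `a ≤ q ≤ b` -/
def WL {V : Type} (G : SimpleGraph V) (n : ℕ) (t p : ℕ → V) (ω M a b : ℕ) : Set V :=
  {u | KL G n t p ω M u ∧ a ≤ qz G t p ω M u ∧ qz G t p ω M u ≤ b}

/-- **(6)** windows -/
def S_Win : Prop := ∀ (V : Type) (G : SimpleGraph V) (n : ℕ) (t p : ℕ → V) (ω M k₁ a₀ : ℕ),
  Bs G n t p ω M k₁ → SPF G Set.univ 11 rJ → a₀ + 150 ≤ M →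
  ∃ i < 4, ∀ u ∈ WH G n t p ω M (a₀ + 35 * i) (a₀ + 35 * i + 33),
    ∀ v ∈ WH G n t p ω M (a₀ + 35 * i) (a₀ + 35 * i + 33), u ≠ v → G.Adj u v

/-- **(8)** Menger -/
def S_Mn : Prop := ∀ (V : Type) [Finite V] (G : SimpleGraph V) (n : ℕ) (t p : ℕ → V)
  (ω M k₁ a : ℕ), Bs G n t p ω M k₁ → a + 40 ≤ M →
  ∃ X A : Set V, X.ncard < 8 * k₁ ∧ (∀ u ∈ A, KL G n t p ω M u ∧ qz G t p ω M u ≤ a + 32) ∧
    (∀ u, KL G n t p ω M u → qz G t p ω M u ≤ a → u ∈ A ∨ u ∈ X) ∧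
    ∀ u ∈ A, ∀ v, v ∉ A → v ∉ X → (KL G n t p ω M v ∨ a + 33 ≤ qz G t p ω M v) → ¬ G.Adj u v

/-- **(9)** near patterns.  `h i ∈ WH .. a (a + 32)`, `y i ∈ WL .. (a + 1) (a + 33)`; by the last hypothesis the `h i` are a
clique.  Match and co-match: `NoTP` (`NoT`; `H3S.killThick`, `killJ`, `X3.killModO`, see H3N/NB); half graph with a clique `y`:
Z-alpha (`H3N.pZa`) with `p i` of the zone `a - 1`; half graph with a stable set `y`: insertion. -/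
def S_Near : Prop := ∀ m : ℕ, 1 ≤ m → ∀ (β : ℕ → ℕ) (ω k₁ : ℕ), ∃ c₀ N : ℕ, ∀ (V : Type)
  [Finite V] (G : SimpleGraph V), Rep.Fr (F9.KF 3 3 ![{0}, {0, 1}, {1, 2}]) J4 G →
    NoT {(true, false, false)} m G → Link β c₀ G → H3.SPo G Set.univ → H3.NoU G →
    ∀ (n : ℕ) (t p : ℕ → V) (M a : ℕ), Bs G n t p ω M k₁ →
      (∀ (n' : ℕ) (t' p' : ℕ → V), Hg G n' t' p' → n' ≤ n) → 3 ≤ a → a + 37 ≤ M →
      (∀ u ∈ WH G n t p ω M a (a + 33), ∀ v ∈ WH G n t p ω M a (a + 33), u ≠ v → G.Adj u v) →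
      ¬ Has3 G (WH G n t p ω M a (a + 32)) (WL G n t p ω M (a + 1) (a + 33)) N

end Pool.Agent.MPd439b2.X3.H3B
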