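import Pool.Agent.Lib.MP_d439b2_co.X3.H3G.DT

/-!
# MP_d439b2_co, X3/H3B, Wd: the letters of a vertex on a half graph of a clique and a stable set (note 2954 of
helper22, (1), (2), (4)), without `K3:0,01,12`

`Hg G n t p`: `t i` (`i < n`) is a clique, `p i` is stable, `t i ~ p j` iff `i ≤ j`.  The letter of `u` at `i`: `LU` (sees `t i`,
misses `p i`), `LL` (misses both), `LH` (sees both), `LX` (misses `t i`, sees `p i`).
-/

set_option autoImplicit false

namespace Pool.Agent.MPd439b2.X3.H3B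

open Pool.Agent.MPd439b2 Pool.Agent.MPd439b2.BU Pool.Agent.MPd439b2.HC Pool.Agent.MPd439b2.X3.H3G

variable {V : Type} {G : SimpleGraph V}

/-! ### patterns of vertices -/

/-- non-adjacent vertices of the pattern are distinguished by a third vertex -/
def sepOK (n : ℕ) (r : ℕ → ℕ → Bool) : Bool :=
  (List.range n).all fun i => (List.range i).all fun j => r i j ||
    (List.range n).any fun k => !Nat.beq k i && !Nat.beq k j && (Eng.rs r i k != Eng.rs r j k)

/-- a pattern of vertices; the vertices are automatically different -/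
theorem sp_sep {n : ℕ} {f : ℕ → V} {r : ℕ → ℕ → Bool}
    (h : ∀ i < n, ∀ j < i, (G.Adj (f i) (f j) ↔ r i j = true)) (hs : sepOK n r = true) :
    SP G Set.univ n (fun i => {f i}) r := by
  have hrs : ∀ i < n, ∀ j < n, i ≠ j → (G.Adj (f i) (f j) ↔ Eng.rs r i j = true) := by
    intro i hi j hj hij
    unfold Eng.rs
    rcases lt_or_gt_of_ne hij with h1 | h1
    · have h7 : Nat.blt j i = false := by
        rw [Bool.eq_false_iff]
        intro h8
        rw [Nat.blt_eq] at h8
        omega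
      have h8 : Nat.blt i j = true := by rw [Nat.blt_eq]; exact h1
      rw [h7, h8, cond_false, cond_true, SimpleGraph.adj_comm]
      exact h j hj i h1
    · have h8 : Nat.blt j i = true := by rw [Nat.blt_eq]; exact h1
      rw [h8, cond_true]
      exact h i hi j h1
  refine ⟨fun _ _ => Set.subset_univ _, fun _ _ => Conn.singleton G _, fun i hi j hj => ?_,
    fun i hi j hj => tch_single.trans (h i hi j hj)⟩
  rw [Set.disjoint_singleton]
  intro hf
  simp only [sepOK, List.all_eq_true, List.mem_range, Bool.or_eq_true, List.any_eq_true,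
    Bool.and_eq_true, Bool.not_eq_true', bne_iff_ne] at hs
  rcases hs i hi j hj with h1 | ⟨k, hk, ⟨hki, hkj⟩, h1⟩
  · exact ((h i hi j hj).2 h1).ne hf
  · have e1 : k ≠ i := fun h2 => by
      rw [h2, Nat.beq_refl] at hki
      exact Bool.noConfusion hki
    have e2 : k ≠ j := fun h2 => by
      rw [h2, Nat.beq_refl] at hkj
      exact Bool.noConfusion hkj
    apply h1
    rw [Bool.eq_iff_iff, ← hrs i hi k hk e1.symm, ← hrs j (by omega) k hk e2.symm, hf]

/-- a pattern of vertices with a certificate -/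
theorem kv {n : ℕ} {f : ℕ → V} {ts : List ℕ} (hG : SPF G Set.univ 6 r3)
    (h : ∀ i < n, ∀ j < i, (G.Adj (f i) (f j) ↔ rc ts i j = true)) (L : List (List ℕ))
    (hc : (sepOK n (rc ts) && chkG n 6 (rc ts) r3 L) = true) : False := by
  rw [Bool.and_eq_true] at hc
  exact hG _ (chkG_sp (sp_sep h hc.1) hc.2)

/-! ### the half graph -/

/-- half graph of a clique and a stable set -/
structure Hg (G : SimpleGraph V) (n : ℕ) (t p : ℕ → V) : Prop where
  tt : ∀ i < n, ∀ j < n, i ≠ j → G.Adj (t i) (t j)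
  pp : ∀ i < n, ∀ j < n, ¬ G.Adj (p i) (p j)
  tp : ∀ i < n, ∀ j < n, (G.Adj (t i) (p j) ↔ i ≤ j)

/-- sees `t i`, misses `p i` -/
def LU (G : SimpleGraph V) (t p : ℕ → V) (u : V) (i : ℕ) : Prop := G.Adj u (t i) ∧ ¬ G.Adj u (p i)

/-- misses both -/
def LL (G : SimpleGraph V) (t p : ℕ → V) (u : V) (i : ℕ) : Prop := ¬ G.Adj u (t i) ∧ ¬ G.Adj u (p i)

/-- sees both -/
def LH (G : SimpleGraph V) (t p : ℕ → V) (u : V) (i : ℕ) : Prop := G.Adj u (t i) ∧ G.Adj u (p i)

/-- misses `t i`, sees `p i` -/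
def LX (G : SimpleGraph V) (t p : ℕ → V) (u : V) (i : ℕ) : Prop := ¬ G.Adj u (t i) ∧ G.Adj u (p i)

variable {n : ℕ} {t p : ℕ → V} {u : V}

theorem letter (G : SimpleGraph V) (t p : ℕ → V) (u : V) (i : ℕ) :
    LU G t p u i ∨ LL G t p u i ∨ LH G t p u i ∨ LX G t p u i := by
  unfold LU LL LH LX
  by_cases h1 : G.Adj u (t i) <;> by_cases h2 : G.Adj u (p i) <;> simp [h1, h2]

theorem Hg.sub (h : Hg G n t p) {m : ℕ} {σ : ℕ → ℕ} (h1 : ∀ i < m, σ i < n)
    (h2 : ∀ i < m, ∀ j < m, i < j → σ i < σ j) : Hg G m (fun i => t (σ i)) (fun i => p (σ i)) := by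
  have hinj : ∀ i < m, ∀ j < m, i ≠ j → σ i ≠ σ j := by
    intro i hi j hj hij
    rcases lt_or_gt_of_ne hij with h3 | h3
    · exact (h2 i hi j hj h3).ne
    · exact (h2 j hj i hi h3).ne'
  have hle : ∀ i < m, ∀ j < m, (σ i ≤ σ j ↔ i ≤ j) := by
    intro i hi j hj
    constructor
    · intro h3
      by_contra h4
      have := h2 j hj i hi (by omega)
      omega
    · intro h3
      rcases Nat.eq_or_lt_of_le h3 with h4 | h4
      · rw [h4]
      · exact (h2 i hi j hj h4).le
  exact ⟨fun i hi j hj hij => h.tt _ (h1 i hi) _ (h1 j hj) (hinj i hi j hj hij),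
    fun i hi j hj => h.pp _ (h1 i hi) _ (h1 j hj),
    fun i hi j hj => (h.tp _ (h1 i hi) _ (h1 j hj)).trans (hle i hi j hj)⟩

theorem ne_tp (h : Hg G n t p) {i j : ℕ} (hi : i < n) (hj : j < n) : t i ≠ p j := by
  intro h1
  have h2 := (h.tp i hi i hi).2 le_rfl
  rw [h1] at h2
  exact h.pp j hj i hi h2

theorem rc_app {bs : List ℕ} {c i : ℕ} (h : i < bs.length) (j : ℕ) :
    rc (bs ++ [c]) i j = rc bs i j := by
  simp only [rc]
  rw [List.getD_append _ _ _ _ h]

theorem rc_len {bs : List ℕ} {c n : ℕ} (h : bs.length = n) (j : ℕ) :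
    rc (bs ++ [c]) n j = c.testBit j := by
  subst h
  simp only [rc]
  rw [List.getD_append_right _ _ _ _ le_rfl, Nat.sub_self]
  rfl

/-- `m` indices and one vertex -/
theorem killm {m : ℕ} {hb : List ℕ} (hl : hb.length = 2 * m)
    (e1 : ∀ i < m, ∀ j < i, rc hb i j = true)
    (e2 : ∀ k < m, ∀ j < m, (rc hb (m + k) j = true ↔ j ≤ k))
    (e3 : ∀ k < m, ∀ l < k, rc hb (m + k) (m + l) = false)
    (hG : SPF G Set.univ 6 r3) (h : Hg G m t p) {c : ℕ}
    (hc : ∀ i < m, (G.Adj u (t i) ↔ c.testBit i = true) ∧ (G.Adj u (p i) ↔ c.testBit (m + i) = true))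
    (L : List (List ℕ)) (hk : (sepOK (2 * m + 1) (rc (hb ++ [c])) &&
      chkG (2 * m + 1) 6 (rc (hb ++ [c])) r3 L) = true) : False := by
  let f : ℕ → V := fun i => if i < m then t i else if i < 2 * m then p (i - m) else u
  have f0 : ∀ i < m, f i = t i := fun i hi => if_pos hi
  have f1 : ∀ i < m, f (m + i) = p i := fun i hi => by
    show (if m + i < m then _ else if m + i < 2 * m then p (m + i - m) else _) = _
    rw [if_neg (by omega), if_pos (by omega), Nat.add_sub_cancel_left]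
  have f2 : f (2 * m) = u := by
    show (if 2 * m < m then _ else if 2 * m < 2 * m then _ else u) = _
    rw [if_neg (by omega), if_neg (by omega)]
  have sp : ∀ i < 2 * m, i < m ∨ ∃ k < m, i = m + k := by
    intro i hi
    by_cases h1 : i < m
    · exact Or.inl h1
    · exact Or.inr ⟨i - m, by omega, by omega⟩
  refine kv (f := f) hG ?_ L hk
  intro i hi j hj
  by_cases h2 : i < 2 * m
  · rw [rc_app (by omega)]
    rcases sp i h2 with h1 | ⟨k, hk', rfl⟩
    · rw [f0 i h1, f0 j (by omega)]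
      exact iff_of_true (h.tt i h1 j (by omega) (by omega)) (e1 i h1 j hj)
    · rw [f1 k hk']
      rcases sp j (by omega) with h1 | ⟨l, hl', rfl⟩
      · rw [f0 j h1, SimpleGraph.adj_comm, h.tp j h1 k hk', e2 k hk' j h1]
      · rw [f1 l hl', e3 k hk' l (by omega)]
        exact iff_of_false (h.pp k hk' l hl') Bool.false_ne_true
  · have h3 : i = 2 * m := by omega
    subst h3
    rw [rc_len hl, f2]
    rcases sp j hj with h1 | ⟨l, hl', rfl⟩
    · rw [f0 j h1]
      exact (hc j h1).1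
    · rw [f1 l hl']
      exact (hc l hl').2

/-- three indices -/
theorem kill3 (hG : SPF G Set.univ 6 r3) (h : Hg G 3 t p) {c : ℕ}
    (hc : ∀ i < 3, (G.Adj u (t i) ↔ c.testBit i = true) ∧ (G.Adj u (p i) ↔ c.testBit (3 + i) = true))
    (L : List (List ℕ)) (hk : (sepOK 7 (rc ([0, 1, 3, 1, 3, 7] ++ [c])) &&
      chkG 7 6 (rc ([0, 1, 3, 1, 3, 7] ++ [c])) r3 L) = true) : False :=
  killm (m := 3) rfl (by decide) (by decide) (by decide) hG h hc L hk

/-- four indices -/
theorem kill4 (hG : SPF G Set.univ 6 r3) (h : Hg G 4 t p) {c : ℕ}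
    (hc : ∀ i < 4, (G.Adj u (t i) ↔ c.testBit i = true) ∧ (G.Adj u (p i) ↔ c.testBit (4 + i) = true))
    (L : List (List ℕ)) (hk : (sepOK 9 (rc ([0, 1, 3, 7, 1, 3, 7, 15] ++ [c])) &&
      chkG 9 6 (rc ([0, 1, 3, 7, 1, 3, 7, 15] ++ [c])) r3 L) = true) : False :=
  killm (m := 4) rfl (by decide) (by decide) (by decide) hG h hc L hk

/-- three indices as a sequence -/
def s3 (i j k : ℕ) (a : ℕ) : ℕ := if a = 0 then i else if a = 1 then j else k

/-- four indices as a sequence -/
def s4 (i j k l : ℕ) (a : ℕ) : ℕ := if a = 0 then i else if a = 1 then j else if a = 2 then k else l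

theorem Hg.s3 (h : Hg G n t p) {i j k : ℕ} (hij : i < j) (hjk : j < k) (hk : k < n) :
    Hg G 3 (fun a => t (s3 i j k a)) (fun a => p (s3 i j k a)) := by
  refine h.sub (fun a ha => ?_) (fun a ha b hb hab => ?_)
  · interval_cases a <;> simp only [H3B.s3] <;> simp <;> omega
  · interval_cases a <;> interval_cases b <;> simp only [H3B.s3] <;> simp <;> omega

theorem Hg.s4 (h : Hg G n t p) {i j k l : ℕ} (hij : i < j) (hjk : j < k) (hkl : k < l) (hl : l < n) :
    Hg G 4 (fun a => t (s4 i j k l a)) (fun a => p (s4 i j k l a)) := by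
  refine h.sub (fun a ha => ?_) (fun a ha b hb hab => ?_)
  · interval_cases a <;> simp only [H3B.s4] <;> simp <;> omega
  · interval_cases a <;> interval_cases b <;> simp only [H3B.s4] <;> simp <;> omega

/-! ### (1) the six forbidden patterns -/

/-- `L U U` -/
theorem noLUU (hG : SPF G Set.univ 6 r3) (h : Hg G n t p) {i j k : ℕ} (hij : i < j) (hjk : j < k)
    (hk : k < n) (h1 : LL G t p u i) (h2 : LU G t p u j) (h3 : LU G t p u k) : False := by
  refine kill3 (u := u) (c := 6) hG (h.s3 hij hjk hk) (fun a ha => ?_)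
    [[0], [1], [2], [3], [4], [6]] (by decide)
  interval_cases a
  · exact ⟨iff_of_false h1.1 (by decide), iff_of_false h1.2 (by decide)⟩
  · exact ⟨iff_of_true h2.1 (by decide), iff_of_false h2.2 (by decide)⟩
  · exact ⟨iff_of_true h3.1 (by decide), iff_of_false h3.2 (by decide)⟩

/-- `H H U` -/
theorem noHHU (hG : SPF G Set.univ 6 r3) (h : Hg G n t p) {i j k : ℕ} (hij : i < j) (hjk : j < k)
    (hk : k < n) (h1 : LH G t p u i) (h2 : LH G t p u j) (h3 : LU G t p u k) : False := by
  refine kill3 (u := u) (c := 31) hG (h.s3 hij hjk hk) (fun a ha => ?_)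
    [[6], [1], [2], [3], [4], [5]] (by decide)
  interval_cases a
  · exact ⟨iff_of_true h1.1 (by decide), iff_of_true h1.2 (by decide)⟩
  · exact ⟨iff_of_true h2.1 (by decide), iff_of_true h2.2 (by decide)⟩
  · exact ⟨iff_of_true h3.1 (by decide), iff_of_false h3.2 (by decide)⟩

/-- `L L H` -/
theorem noLLH (hG : SPF G Set.univ 6 r3) (h : Hg G n t p) {i j k : ℕ} (hij : i < j) (hjk : j < k)
    (hk : k < n) (h1 : LL G t p u i) (h2 : LL G t p u j) (h3 : LH G t p u k) : False := by
  refine kill3 (u := u) (c := 36) hG (h.s3 hij hjk hk) (fun a ha => ?_)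
    [[0], [1, 2], [5], [3], [4], [6]] (by decide)
  interval_cases a
  · exact ⟨iff_of_false h1.1 (by decide), iff_of_false h1.2 (by decide)⟩
  · exact ⟨iff_of_false h2.1 (by decide), iff_of_false h2.2 (by decide)⟩
  · exact ⟨iff_of_true h3.1 (by decide), iff_of_true h3.2 (by decide)⟩

/-- `H H H L` -/
theorem noHHHL (hG : SPF G Set.univ 6 r3) (h : Hg G n t p) {i j k l : ℕ} (hij : i < j) (hjk : j < k)
    (hkl : k < l) (hl : l < n) (h1 : LH G t p u i) (h2 : LH G t p u j) (h3 : LH G t p u k)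
    (h4 : LL G t p u l) : False := by
  refine kill4 (u := u) (c := 119) hG (h.s4 hij hjk hkl hl) (fun a ha => ?_)
    [[8], [1], [2], [4], [5], [3]] (by decide)
  interval_cases a
  · exact ⟨iff_of_true h1.1 (by decide), iff_of_true h1.2 (by decide)⟩
  · exact ⟨iff_of_true h2.1 (by decide), iff_of_true h2.2 (by decide)⟩
  · exact ⟨iff_of_true h3.1 (by decide), iff_of_true h3.2 (by decide)⟩
  · exact ⟨iff_of_false h4.1 (by decide), iff_of_false h4.2 (by decide)⟩

/-- `X U U U` -/
theorem noXUUU (hG : SPF G Set.univ 6 r3) (h : Hg G n t p) {i j k l : ℕ} (hij : i < j) (hjk : j < k)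
    (hkl : k < l) (hl : l < n) (h1 : LX G t p u i) (h2 : LU G t p u j) (h3 : LU G t p u k)
    (h4 : LU G t p u l) : False := by
  refine kill4 (u := u) (c := 30) hG (h.s4 hij hjk hkl hl) (fun a ha => ?_)
    [[0], [2], [3], [5], [6], [8]] (by decide)
  interval_cases a
  · exact ⟨iff_of_false h1.1 (by decide), iff_of_true h1.2 (by decide)⟩
  · exact ⟨iff_of_true h2.1 (by decide), iff_of_false h2.2 (by decide)⟩
  · exact ⟨iff_of_true h3.1 (by decide), iff_of_false h3.2 (by decide)⟩
  · exact ⟨iff_of_true h4.1 (by decide), iff_of_false h4.2 (by decide)⟩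

/-- `X X X X` -/
theorem noXXXX (hG : SPF G Set.univ 6 r3) (h : Hg G n t p) {i j k l : ℕ} (hij : i < j) (hjk : j < k)
    (hkl : k < l) (hl : l < n) (h1 : LX G t p u i) (h2 : LX G t p u j) (h3 : LX G t p u k)
    (h4 : LX G t p u l) : False := by
  refine kill4 (u := u) (c := 240) hG (h.s4 hij hjk hkl hl) (fun a ha => ?_)
    [[8], [1, 5], [7], [4], [6], [3]] (by decide)
  interval_cases a
  · exact ⟨iff_of_false h1.1 (by decide), iff_of_true h1.2 (by decide)⟩
  · exact ⟨iff_of_false h2.1 (by decide), iff_of_true h2.2 (by decide)⟩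
  · exact ⟨iff_of_false h3.1 (by decide), iff_of_true h3.2 (by decide)⟩
  · exact ⟨iff_of_false h4.1 (by decide), iff_of_true h4.2 (by decide)⟩

end Pool.Agent.MPd439b2.X3.H3B
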