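import Pool.Agent.Lib.MP_d439b2_co.X3.H3B.Wd
import Pool.Agent.Lib.MP_d439b2_co.X3.H3N.Defs
import Pool.Agent.Lib.MP_d439b2_co.W.SpecE

/-!
# MP_d439b2_co, X3/H3B, Wd2: words (2), local facts (4), crossing edges (5) of note 2954 of helper22
-/

set_option autoImplicit false

namespace Pool.Agent.MPd439b2.X3.H3B

open Pool.Agent.MPd439b2 Pool.Agent.MPd439b2.BU Pool.Agent.MPd439b2.HC Pool.Agent.MPd439b2.X3.H3G

/-! ### counting -/

theorem incN (S : Set ℕ) (hS : S.Finite) (m : ℕ) (h : m ≤ S.ncard) :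
    ∃ σ : ℕ → ℕ, (∀ i < m, σ i ∈ S) ∧ ∀ i j, i < j → j < m → σ i < σ j := by
  classical
  have h1 : m ≤ hS.toFinset.card := by
    rwa [Set.ncard_eq_toFinset_card S hS] at h
  obtain ⟨t, ht, hc⟩ := Finset.exists_subset_card_eq h1
  refine ⟨fun i => if h : i < m then t.orderEmbOfFin hc ⟨i, h⟩ else 0, ?_, ?_⟩
  · intro i hi
    simp only [hi, dif_pos]
    exact (hS.mem_toFinset).1 (ht (Finset.orderEmbOfFin_mem t hc ⟨i, hi⟩))
  · intro i j hij hj
    have hi : i < m := by omega
    simp only [hi, hj, dif_pos]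
    exact (t.orderEmbOfFin hc).strictMono hij

theorem bad_and {I : Set ℕ} (hI : I.Finite) {P Q : ℕ → Prop} {a b : ℕ}
    (h1 : {k | k ∈ I ∧ ¬ P k}.ncard ≤ a) (h2 : {k | k ∈ I ∧ ¬ Q k}.ncard ≤ b) :
    {k | k ∈ I ∧ ¬ (P k ∧ Q k)}.ncard ≤ a + b := by
  have h3 : {k | k ∈ I ∧ ¬ (P k ∧ Q k)} ⊆ {k | k ∈ I ∧ ¬ P k} ∪ {k | k ∈ I ∧ ¬ Q k} := by
    rintro k ⟨hk, h⟩
    by_cases hP : P k
    · exact Or.inr ⟨hk, fun hQ => h ⟨hP, hQ⟩⟩
    · exact Or.inl ⟨hk, hP⟩
  have f1 : {k | k ∈ I ∧ ¬ P k}.Finite := hI.subset fun _ h => h.1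
  have f2 : {k | k ∈ I ∧ ¬ Q k}.Finite := hI.subset fun _ h => h.1
  refine (Set.ncard_le_ncard h3 (f1.union f2)).trans ((Set.ncard_union_le _ _).trans ?_)
  exact Nat.add_le_add h1 h2

theorem bad_all {I : Set ℕ} (hI : I.Finite) {P : ℕ → ℕ → Prop} {s : ℕ} : ∀ r : ℕ,
    (∀ a < r, {k | k ∈ I ∧ ¬ P a k}.ncard ≤ s) → {k | k ∈ I ∧ ¬ ∀ a < r, P a k}.ncard ≤ r * s := by
  intro r
  induction r with
  | zero =>
    intro _
    have h1 : {k | k ∈ I ∧ ¬ ∀ a < 0, P a k} = ∅ := by
      ext k
      constructor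
      · rintro ⟨-, h⟩
        exact absurd (fun a ha => absurd ha (by omega)) h
      · intro h
        exact absurd h (Set.notMem_empty k)
    rw [h1, Set.ncard_empty]
    omega
  | succ r ih =>
    intro h
    have h1 := bad_and hI (ih fun a ha => h a (by omega)) (h r (by omega))
    refine le_trans (Set.ncard_le_ncard ?_ (hI.subset fun _ h => h.1)) (h1.trans ?_)
    · rintro k ⟨hk, h2⟩
      refine ⟨hk, fun h3 => h2 fun a ha => ?_⟩
      rcases Nat.lt_succ_iff_lt_or_eq.1 ha with h4 | h4
      · exact h3.1 a h4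
      · rw [h4]
        exact h3.2
    · rw [Nat.succ_mul]

/-- elements outside a small set -/
theorem pickG {I : Set ℕ} (hI : I.Finite) {P : ℕ → Prop} {s m : ℕ}
    (h1 : {k | k ∈ I ∧ ¬ P k}.ncard ≤ s) (h2 : s + m ≤ I.ncard) :
    ∃ σ : ℕ → ℕ, (∀ i < m, σ i ∈ I ∧ P (σ i)) ∧ ∀ i j, i < j → j < m → σ i < σ j := by
  have h3 : I ⊆ {k | k ∈ I ∧ P k} ∪ {k | k ∈ I ∧ ¬ P k} := by
    intro k hk
    by_cases hP : P k
    · exact Or.inl ⟨hk, hP⟩
    · exact Or.inr ⟨hk, hP⟩
  have f1 : {k | k ∈ I ∧ P k}.Finite := hI.subset fun _ h => h.1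
  have f2 : {k | k ∈ I ∧ ¬ P k}.Finite := hI.subset fun _ h => h.1
  have h4 := (Set.ncard_le_ncard h3 (f1.union f2)).trans (Set.ncard_union_le _ _)
  exact incN _ f1 m (by omega)

variable {V : Type} {G : SimpleGraph V} {n : ℕ} {t p : ℕ → V} {u : V}

/-! ### (2) words -/

/-- **words** -/
theorem words (hG : SPF G Set.univ 6 r3) (h : Hg G n t p) {i j : ℕ} (hij : i < j)
    (h1 : ¬ LU G t p u i) (h2 : ¬ LU G t p u j) :
    {k | (j < k ∧ k < n) ∧ ¬ LL G t p u k}.ncard ≤ 7 ∨
      {k | (j < k ∧ k < n) ∧ ¬ LH G t p u k}.ncard ≤ 7 := by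
  have fin : ∀ P : ℕ → Prop, {k | (j < k ∧ k < n) ∧ P k}.Finite := fun P =>
    (Set.finite_lt_nat n).subset fun k hk => hk.1.2
  -- the letters `U`
  have cU : {k | (j < k ∧ k < n) ∧ LU G t p u k}.ncard ≤ 2 := by
    by_contra hc
    obtain ⟨σ, s1, s2⟩ := incN _ (fin (fun k => LU G t p u k)) 3 (by omega)
    have a01 := s2 0 1 (by omega) (by omega)
    have a12 := s2 1 2 (by omega) (by omega)
    obtain ⟨⟨j0, -⟩, l0⟩ := s1 0 (by omega)
    obtain ⟨⟨j1, n1⟩, l1⟩ := s1 1 (by omega)
    obtain ⟨⟨j2, n2⟩, l2⟩ := s1 2 (by omega)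
    have key : ∀ a, a ≤ j → ¬ (LL G t p u a ∨ LX G t p u a) := by
      rintro a ha (h3 | h3)
      · exact noLUU hG h (by omega) a01 (by omega) h3 l0 l1
      · exact noXUUU hG h (by omega) a01 a12 n2 h3 l0 l1 l2
    have k1 : LH G t p u i := by
      rcases letter G t p u i with h3 | h3 | h3 | h3
      · exact absurd h3 h1
      · exact absurd (Or.inl h3) (key i hij.le)
      · exact h3
      · exact absurd (Or.inr h3) (key i hij.le)
    have k2 : LH G t p u j := by
      rcases letter G t p u j with h3 | h3 | h3 | h3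
      · exact absurd h3 h2
      · exact absurd (Or.inl h3) (key j le_rfl)
      · exact h3
      · exact absurd (Or.inr h3) (key j le_rfl)
    exact noHHU hG h hij j0 (by omega) k1 k2 l0
  -- the letters `X`
  have cX : {k | (j < k ∧ k < n) ∧ LX G t p u k}.ncard ≤ 3 := by
    by_contra hc
    obtain ⟨σ, s1, s2⟩ := incN _ (fin (fun k => LX G t p u k)) 4 (by omega)
    exact noXXXX hG h (s2 0 1 (by omega) (by omega)) (s2 1 2 (by omega) (by omega))
      (s2 2 3 (by omega) (by omega)) (s1 3 (by omega)).1.2 (s1 0 (by omega)).2 (s1 1 (by omega)).2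
      (s1 2 (by omega)).2 (s1 3 (by omega)).2
  -- the letters `L`, `H`
  have cLH : {k | (j < k ∧ k < n) ∧ LL G t p u k}.ncard ≤ 1 ∨
      {k | (j < k ∧ k < n) ∧ LH G t p u k}.ncard ≤ 2 := by
    by_contra hc
    rw [not_or] at hc
    obtain ⟨σ, s1, s2⟩ := incN _ (fin _) 2 (by omega : 2 ≤ {k | (j < k ∧ k < n) ∧ LL G t p u k}.ncard)
    obtain ⟨τ, r1, r2⟩ := incN _ (fin _) 3 (by omega : 3 ≤ {k | (j < k ∧ k < n) ∧ LH G t p u k}.ncard)
    have hne : ∀ a b, LL G t p u a → LH G t p u b → a ≠ b := by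
      intro a b h3 h4 h5
      rw [h5] at h3
      exact h3.1 h4.1
    have a01 := s2 0 1 (by omega) (by omega)
    have b01 := r2 0 1 (by omega) (by omega)
    have b12 := r2 1 2 (by omega) (by omega)
    rcases lt_or_gt_of_ne (hne _ _ (s1 1 (by omega)).2 (r1 2 (by omega)).2) with h3 | h3
    · exact noLLH hG h a01 h3 (r1 2 (by omega)).1.2 (s1 0 (by omega)).2 (s1 1 (by omega)).2
        (r1 2 (by omega)).2
    · exact noHHHL hG h b01 b12 h3 (s1 1 (by omega)).1.2 (r1 0 (by omega)).2 (r1 1 (by omega)).2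
        (r1 2 (by omega)).2 (s1 1 (by omega)).2
  -- the union
  have un : ∀ (A B C D : Set ℕ), A.Finite → B.Finite → C.Finite → D ⊆ A ∪ B ∪ C →
      D.ncard ≤ A.ncard + B.ncard + C.ncard := by
    intro A B C D hA hB hC hD
    refine (Set.ncard_le_ncard hD ((hA.union hB).union hC)).trans
      ((Set.ncard_union_le _ _).trans (Nat.add_le_add_right (Set.ncard_union_le _ _) _))
  rcases cLH with h3 | h3
  · right
    have h4 := un _ _ _ {k | (j < k ∧ k < n) ∧ ¬ LH G t p u k} (fin _) (fin _) (fin _)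
      (fun k hk => by
        rcases letter G t p u k with h5 | h5 | h5 | h5
        · exact Or.inl (Or.inl ⟨hk.1, h5⟩)
        · exact Or.inr ⟨hk.1, h5⟩
        · exact absurd h5 hk.2
        · exact Or.inl (Or.inr ⟨hk.1, h5⟩) : _ ⊆ {k | (j < k ∧ k < n) ∧ LU G t p u k} ∪
          {k | (j < k ∧ k < n) ∧ LX G t p u k} ∪ {k | (j < k ∧ k < n) ∧ LL G t p u k})
    omega
  · left
    have h4 := un _ _ _ {k | (j < k ∧ k < n) ∧ ¬ LL G t p u k} (fin _) (fin _) (fin _)
      (fun k hk => by
        rcases letter G t p u k with h5 | h5 | h5 | h5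
        · exact Or.inl (Or.inl ⟨hk.1, h5⟩)
        · exact absurd h5 hk.2
        · exact Or.inr ⟨hk.1, h5⟩
        · exact Or.inl (Or.inr ⟨hk.1, h5⟩) : _ ⊆ {k | (j < k ∧ k < n) ∧ LU G t p u k} ∪
          {k | (j < k ∧ k < n) ∧ LX G t p u k} ∪ {k | (j < k ∧ k < n) ∧ LH G t p u k})
    omega

/-! ### (4) local facts -/

/-- (B) -/
theorem adjHU (hG : SPF G Set.univ 6 r3) (h : Hg G n t p) {a b c : ℕ} (hab : a < b) (hbc : b < c)
    (hc : c < n) {v : V} (ua : LH G t p u a) (ub : LH G t p u b) (uc : LH G t p u c)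
    (va : LU G t p v a) (vb : LU G t p v b) (vc : LU G t p v c) : G.Adj u v := by
  by_contra huv
  -- u, t b, t c, p a, p b, v
  refine kv (f := fun i => if i = 0 then u else if i = 1 then t b else if i = 2 then t c else
    if i = 3 then p a else if i = 4 then p b else v) (n := 6) (ts := [0, 1, 3, 1, 3, 6]) hG ?_
    [[0], [1], [2], [3], [4], [5]] (by decide)
  intro i hi j hj
  interval_cases i
  · omega
  · interval_cases j
    exact iff_of_true ub.1.symm (by decide)
  · interval_cases j
    · exact iff_of_true uc.1.symm (by decide)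
    · exact iff_of_true (h.tt c hc b (by omega) (by omega)) (by decide)
  · interval_cases j
    · exact iff_of_true ua.2.symm (by decide)
    · exact iff_of_false (fun h1 => absurd ((h.tp b (by omega) a (by omega)).1 h1.symm) (by omega))
        (by decide)
    · exact iff_of_false (fun h1 => absurd ((h.tp c hc a (by omega)).1 h1.symm) (by omega)) (by decide)
  · interval_cases j
    · exact iff_of_true ub.2.symm (by decide)
    · exact iff_of_true ((h.tp b (by omega) b (by omega)).2 le_rfl).symm (by decide)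
    · exact iff_of_false (fun h1 => absurd ((h.tp c hc b (by omega)).1 h1.symm) (by omega)) (by decide)
    · exact iff_of_false (h.pp b (by omega) a (by omega)) (by decide)
  · interval_cases j
    · exact iff_of_false (fun h1 => huv h1.symm) (by decide)
    · exact iff_of_true vb.1 (by decide)
    · exact iff_of_true vc.1 (by decide)
    · exact iff_of_false va.2 (by decide)
    · exact iff_of_false vb.2 (by decide)

/-- (C) a connected set which misses `t a`, `t b`, `p a`, `p b` does not touch two vertices with the letter `U` at `a < b` -/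
theorem noC (hG : SPF G Set.univ 6 r3) (h : Hg G n t p) {a b : ℕ} (hab : a < b) (hb : b < n)
    {X : Set V} (hX : Conn G X) (X1 : t a ∉ X ∧ t b ∉ X ∧ p a ∉ X ∧ p b ∉ X)
    (X2 : ¬ Tch G X {t a} ∧ ¬ Tch G X {t b} ∧ ¬ Tch G X {p a} ∧ ¬ Tch G X {p b})
    {z z' : V} (hzz : z ≠ z') (za : LU G t p z a) (zb : LU G t p z b) (za' : LU G t p z' a)
    (zb' : LU G t p z' b) (hz : z ∉ X) (hz' : z' ∉ X) (tz : Tch G X {z}) (tz' : Tch G X {z'}) :
    False := by
  have ha : a < n := by omega
  obtain ⟨c, hc⟩ : ∃ c : Bool, G.Adj z' z ↔ c = true := by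
    by_cases h1 : G.Adj z' z
    · exact ⟨true, iff_of_true h1 rfl⟩
    · exact ⟨false, iff_of_false h1 Bool.false_ne_true⟩
  have npb : ∀ {y : V}, Tch G X {y} → y ≠ p b := fun h1 h2 => X2.2.2.2 (h2 ▸ h1)
  have npa : ∀ {y : V}, Tch G X {y} → y ≠ p a := fun h1 h2 => X2.2.2.1 (h2 ▸ h1)
  -- t a, t b, z, z', p a, p b
  have hS : SP G Set.univ 6 (fun i => {if i = 0 then t a else if i = 1 then t b else if i = 2 then z
      else if i = 3 then z' else if i = 4 then p a else p b})
      (rc [0, 1, 3, 3 + (bif c then 4 else 0), 1, 3]) := by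
    refine ⟨fun _ _ => Set.subset_univ _, fun _ _ => Conn.singleton G _, fun i hi j hj => ?_,
      fun i hi j hj => tch_single.trans ?_⟩
    · rw [Set.disjoint_singleton]
      interval_cases i
      · omega
      · interval_cases j
        exact (h.tt b hb a ha (by omega)).ne
      · interval_cases j
        · exact za.1.ne
        · exact zb.1.ne
      · interval_cases j
        · exact za'.1.ne
        · exact zb'.1.ne
        · exact hzz.symm
      · interval_cases j
        · exact (ne_tp h ha ha).symm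
        · exact (ne_tp h hb ha).symm
        · exact (npa tz).symm
        · exact (npa tz').symm
      · interval_cases j
        · exact (ne_tp h ha hb).symm
        · exact (ne_tp h hb hb).symm
        · exact (npb tz).symm
        · exact (npb tz').symm
        · intro h1
          have h2 := (h.tp b hb b hb).2 le_rfl
          rw [show p b = p a from h1] at h2
          exact absurd ((h.tp b hb a ha).1 h2) (by omega)
    · cases c
      all_goals interval_cases i
      all_goals first
        | omega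
        | skip
      all_goals interval_cases j
      all_goals first
        | exact iff_of_true (h.tt b hb a ha (by omega)) (by decide)
        | exact iff_of_true za.1 (by decide)
        | exact iff_of_true zb.1 (by decide)
        | exact iff_of_true za'.1 (by decide)
        | exact iff_of_true zb'.1 (by decide)
        | exact iff_of_false (fun h1 => absurd (hc.1 h1) (by decide)) (by decide)
        | exact iff_of_true (hc.2 rfl) (by decide)
        | exact iff_of_true ((h.tp a ha a ha).2 le_rfl).symm (by decide)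
        | exact iff_of_false (fun h1 => absurd ((h.tp b hb a ha).1 h1.symm) (by omega)) (by decide)
        | exact iff_of_false (fun h1 => za.2 h1.symm) (by decide)
        | exact iff_of_false (fun h1 => za'.2 h1.symm) (by decide)
        | exact iff_of_true ((h.tp a ha b hb).2 hab.le).symm (by decide)
        | exact iff_of_true ((h.tp b hb b hb).2 le_rfl).symm (by decide)
        | exact iff_of_false (fun h1 => zb.2 h1.symm) (by decide)
        | exact iff_of_false (fun h1 => zb'.2 h1.symm) (by decide)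
        | exact iff_of_false (h.pp b hb a ha) (by decide)
  have hS2 := snocT (K := X) (t := 12) hS rfl hX (Set.subset_univ _) (fun j hj => by
    rw [Set.disjoint_singleton_right]
    interval_cases j
    · exact X1.1
    · exact X1.2.1
    · exact hz
    · exact hz'
    · exact X1.2.2.1
    · exact X1.2.2.2) ⟨by decide, fun j hj => by
    interval_cases j
    · exact iff_of_false X2.1 (by decide)
    · exact iff_of_false X2.2.1 (by decide)
    · exact iff_of_true tz (by decide)
    · exact iff_of_true tz' (by decide)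
    · exact iff_of_false X2.2.2.1 (by decide)
    · exact iff_of_false X2.2.2.2 (by decide)⟩
  refine kl hG hS2 (cs := [[[0], [1, 2], [3], [4], [5], [6]]]) ?_
  cases c <;> decide

end Pool.Agent.MPd439b2.X3.H3B
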