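import Pool.Agent.Lib.MP_d439b2_co.X3.H3B.Spec

/-!
# MP_d439b2_co, X3/H3B, Win: windows, (6) of note 2954 of helper22
-/

set_option autoImplicit false

namespace Pool.Agent.MPd439b2.X3.H3B

open Pool.Agent.MPd439b2 Pool.Agent.MPd439b2.BU Pool.Agent.MPd439b2.HC Pool.Agent.MPd439b2.X3.H3G

theorem rJ8 : ∀ i < 8, ∀ j < i, rJ i j = !(Nat.beq (i / 2) (j / 2)) := by decide

theorem rJ3 : ∀ i < 11, 8 ≤ i → ∀ j < 8, rJ i j = true := by decide

/-- **(6)** -/
theorem win : S_Win := by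
  intro V G n t p ω M k₁ a₀ hB hJ hM
  by_contra hc
  push Not at hc
  have h1 : ∀ i, ∃ u v, i < 4 → (u ∈ WH G n t p ω M (a₀ + 35 * i) (a₀ + 35 * i + 33) ∧
      v ∈ WH G n t p ω M (a₀ + 35 * i) (a₀ + 35 * i + 33) ∧ u ≠ v ∧ ¬ G.Adj u v) := by
    intro i
    by_cases hi : i < 4
    · obtain ⟨u, hu, v, hv, h2, h3⟩ := hc i hi
      exact ⟨u, v, fun _ => ⟨hu, hv, h2, h3⟩⟩
    · exact ⟨t 0, t 0, fun h2 => absurd h2 hi⟩
  choose x y hxy using h1
  have hω : 60 ≤ ω := by
    have := hB.hω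
    omega
  -- the eight vertices
  let g : ℕ → V := fun i => if i % 2 = 0 then x (i / 2) else y (i / 2)
  have hg : ∀ i < 8, g i ∈ WH G n t p ω M (a₀ + 35 * (i / 2)) (a₀ + 35 * (i / 2) + 33) := by
    intro i hi
    have h2 := hxy (i / 2) (by omega)
    show (if i % 2 = 0 then x (i / 2) else y (i / 2)) ∈ _
    split
    · exact h2.1
    · exact h2.2.1
  have g1 : ∀ i < 8, ∀ j < i, ¬ i / 2 = j / 2 → G.Adj (g i) (g j) := by
    intro i hi j hj hij
    have a1 := hg i hi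
    have a2 := hg j (by omega)
    refine (adj_F2 hB.hG hB.h hB.hM hω a2.1 ?_).symm
    have b1 := a1.2.1
    have b2 := a2.2.2
    omega
  have g2 : ∀ i < 8, ∀ j < i, i / 2 = j / 2 → (g i ≠ g j ∧ ¬ G.Adj (g i) (g j)) := by
    intro i hi j hj hij
    have h2 := hxy (j / 2) (by omega)
    have e1 : i % 2 = 1 := by omega
    have e2 : j % 2 = 0 := by omega
    have e3 : g i = y (j / 2) := by
      show (if i % 2 = 0 then x (i / 2) else y (i / 2)) = _
      rw [if_neg (by omega), hij]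
    have e4 : g j = x (j / 2) := by
      show (if j % 2 = 0 then x (j / 2) else y (j / 2)) = _
      rw [if_pos e2]
    rw [e3, e4]
    exact ⟨h2.2.2.1.symm, fun h3 => h2.2.2.2 h3.symm⟩
  -- the two indices
  have hd : a₀ + 145 < M := by omega
  obtain ⟨σ, s1, s2⟩ := pickG (m := 2) (zn_fin ω (a₀ + 145))
    (bad_all (zn_fin ω (a₀ + 145)) (P := fun a k => LH G t p (g a) k) (s := 7) 8 fun a ha =>
      (hg a ha).1.zone hB.hM (by
        have := (hg a ha).2.2
        omega) hd) (by rw [zn_card]; omega)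
  obtain ⟨z0, l0⟩ := s1 0 (by omega)
  obtain ⟨z1, l1⟩ := s1 1 (by omega)
  have s01 := s2 0 1 (by omega) (by omega)
  have n0 := zn_lt hB.hM hd z0
  have n1 := zn_lt hB.hM hd z1
  have q1 : ¬ G.Adj (t (σ 1)) (p (σ 0)) := fun h2 => absurd ((hB.h.tp _ n1 _ n0).1 h2) (by omega)
  have q2 : G.Adj (t (σ 1)) (p (σ 1)) := (hB.h.tp _ n1 _ n1).2 le_rfl
  have q3 : ¬ G.Adj (p (σ 1)) (p (σ 0)) := hB.h.pp _ n1 _ n0
  let f : ℕ → V := fun i => if i < 8 then g i else if i = 8 then t (σ 1) else if i = 9 then p (σ 0)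
    else p (σ 1)
  have f0 : ∀ i < 8, f i = g i := fun i hi => if_pos hi
  have f8 : f 8 = t (σ 1) := rfl
  have f9 : f 9 = p (σ 0) := rfl
  have f10 : f 10 = p (σ 1) := rfl
  have f1 : ∀ i < 11, 8 ≤ i → ∀ j < 8, G.Adj (f i) (g j) := by
    intro i hi hi8 j hj
    rcases (by omega : i = 8 ∨ i = 9 ∨ i = 10) with rfl | rfl | rfl
    · rw [f8]
      exact (l1 j hj).1.symm
    · rw [f9]
      exact (l0 j hj).2.symm
    · rw [f10]
      exact (l1 j hj).2.symm
  have hadj : ∀ i < 11, ∀ j < i, (G.Adj (f i) (f j) ↔ rJ i j = true) := by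
    intro i hi j hj
    by_cases hj8 : j < 8
    · by_cases hi8 : i < 8
      · rw [f0 i hi8, f0 j hj8, rJ8 i hi8 j hj]
        by_cases h2 : i / 2 = j / 2
        · refine iff_of_false (g2 i hi8 j hj h2).2 ?_
          rw [h2, Nat.beq_refl]
          decide
        · refine iff_of_true (g1 i hi8 j hj h2) ?_
          rw [Bool.not_eq_true', Bool.eq_false_iff]
          exact fun h3 => h2 (Nat.eq_of_beq_eq_true h3)
      · rw [f0 j hj8, rJ3 i hi (by omega) j hj8]
        exact iff_of_true (f1 i hi (by omega) j hj8) rfl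
    · rcases (by omega : (i = 9 ∧ j = 8) ∨ (i = 10 ∧ j = 8) ∨ (i = 10 ∧ j = 9)) with
        ⟨rfl, rfl⟩ | ⟨rfl, rfl⟩ | ⟨rfl, rfl⟩
      · rw [f9, f8]
        exact iff_of_false (fun h2 => q1 h2.symm) (by decide)
      · rw [f10, f8]
        exact iff_of_true q2.symm (by decide)
      · rw [f10, f9]
        exact iff_of_false q3 (by decide)
  have hne : ∀ i < 11, ∀ j < i, f i ≠ f j := by
    intro i hi j hj
    by_cases h2 : rJ i j = true
    · exact ((hadj i hi j hj).2 h2).ne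
    · by_cases hj8 : j < 8
      · by_cases hi8 : i < 8
        · rw [f0 i hi8, f0 j hj8]
          by_cases h3 : i / 2 = j / 2
          · exact (g2 i hi8 j hj h3).1
          · exact (g1 i hi8 j hj h3).ne
        · rw [f0 j hj8]
          exact (f1 i hi (by omega) j hj8).ne
      · rcases (by omega : (i = 9 ∧ j = 8) ∨ (i = 10 ∧ j = 8) ∨ (i = 10 ∧ j = 9)) with
          ⟨rfl, rfl⟩ | ⟨rfl, rfl⟩ | ⟨rfl, rfl⟩
        · rw [f9, f8]
          exact (ne_tp hB.h n1 n0).symm
        · rw [f10, f8]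
          exact (ne_tp hB.h n1 n1).symm
        · rw [f10, f9]
          intro h3
          rw [h3] at q2
          exact q1 q2
  exact hJ (fun i => {f i}) ⟨fun _ _ => Set.subset_univ _, fun _ _ => Conn.singleton G _,
    fun i hi j hj => Set.disjoint_singleton.2 (hne i hi j hj),
    fun i hi j hj => tch_single.trans (hadj i hi j hj)⟩

end Pool.Agent.MPd439b2.X3.H3B
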