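import Pool.Agent.Lib.MP_d439b2_co.X3.H3B.Wd2

/-!
# MP_d439b2_co, X3/H3B, Zone: zones and classes, (3) and (F2) of note 2954 of helper22

`zn ω d` = the indices `d * ω, .., (d + 1) * ω - 1`; `qz` = the first zone `d < M` in which `u` has at least two letters
different from `U` (`M` if there is none); `KL`, `KH`: the classes `L`, `H` (at most `7` letters different from `L` resp. `H`
at the indices above the zone `qz`).
-/

set_option autoImplicit false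

namespace Pool.Agent.MPd439b2.X3.H3B

open Pool.Agent.MPd439b2 Pool.Agent.MPd439b2.BU Pool.Agent.MPd439b2.HC Pool.Agent.MPd439b2.X3.H3G

variable {V : Type}

/-- the zone `d` -/
def zn (ω d : ℕ) : Set ℕ := {k | d * ω ≤ k ∧ k < (d + 1) * ω}

/-- the first zone with two letters different from `U` -/
noncomputable def qz (G : SimpleGraph V) (t p : ℕ → V) (ω M : ℕ) (u : V) : ℕ :=
  sInf {d | d = M ∨ 2 ≤ {k | k ∈ zn ω d ∧ ¬ LU G t p u k}.ncard}

/-- class `L` -/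
def KL (G : SimpleGraph V) (n : ℕ) (t p : ℕ → V) (ω M : ℕ) (u : V) : Prop :=
  qz G t p ω M u < M ∧ {k | ((qz G t p ω M u + 1) * ω ≤ k ∧ k < n) ∧ ¬ LL G t p u k}.ncard ≤ 7

/-- class `H` -/
def KH (G : SimpleGraph V) (n : ℕ) (t p : ℕ → V) (ω M : ℕ) (u : V) : Prop :=
  qz G t p ω M u < M ∧ {k | ((qz G t p ω M u + 1) * ω ≤ k ∧ k < n) ∧ ¬ LH G t p u k}.ncard ≤ 7

theorem zn_fin (ω d : ℕ) : (zn ω d).Finite := (Set.finite_lt_nat ((d + 1) * ω)).subset fun _ h => h.2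

theorem zn_card (ω d : ℕ) : (zn ω d).ncard = ω := by
  have h1 : zn ω d = ((Finset.Ico (d * ω) ((d + 1) * ω) : Finset ℕ) : Set ℕ) := by
    ext k
    simp [zn]
  rw [h1, Set.ncard_coe_finset, Nat.card_Ico, Nat.add_mul, Nat.one_mul, Nat.add_sub_cancel_left]

theorem zn_lt {ω M n d k : ℕ} (hM : M * ω ≤ n) (hd : d < M) (hk : k ∈ zn ω d) : k < n := by
  have h1 : (d + 1) * ω ≤ M * ω := Nat.mul_le_mul_right _ hd
  have h2 := hk.2
  omega

variable {G : SimpleGraph V} {n : ℕ} {t p : ℕ → V} {ω M : ℕ} {u v : V}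

theorem qz_le : qz G t p ω M u ≤ M := Nat.sInf_le (Or.inl rfl)

theorem qz_low {d : ℕ} (h : d < qz G t p ω M u) : {k | k ∈ zn ω d ∧ ¬ LU G t p u k}.ncard ≤ 1 := by
  by_contra hc
  exact Nat.notMem_of_lt_sInf h (Or.inr (by omega))

theorem qz_two (h : qz G t p ω M u < M) :
    2 ≤ {k | k ∈ zn ω (qz G t p ω M u) ∧ ¬ LU G t p u k}.ncard := by
  rcases Nat.sInf_mem (s := {d | d = M ∨ 2 ≤ {k | k ∈ zn ω d ∧ ¬ LU G t p u k}.ncard})
    ⟨M, Or.inl rfl⟩ with h1 | h1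
  · exact absurd h1 h.ne
  · exact h1

theorem qz_le_of {d : ℕ} (h : 2 ≤ {k | k ∈ zn ω d ∧ ¬ LU G t p u k}.ncard) :
    qz G t p ω M u ≤ d := Nat.sInf_le (Or.inr h)

theorem le_qz_of {e : ℕ} (he : e ≤ M)
    (h : ∀ d < e, {k | k ∈ zn ω d ∧ ¬ LU G t p u k}.ncard ≤ 1) : e ≤ qz G t p ω M u := by
  by_contra hc
  push Not at hc
  have h1 := qz_two (hc.trans_le he)
  have h2 := h _ hc
  omega

/-- (3) the classes -/
theorem cls (hG : SPF G Set.univ 6 r3) (h : Hg G n t p) (hq : qz G t p ω M u < M) :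
    KL G n t p ω M u ∨ KH G n t p ω M u := by
  have hf : {k | k ∈ zn ω (qz G t p ω M u) ∧ ¬ LU G t p u k}.Finite :=
    (zn_fin _ _).subset fun _ h => h.1
  obtain ⟨σ, s1, s2⟩ := incN _ hf 2 (qz_two hq)
  have h0 := s1 0 (by omega)
  have h1 := s1 1 (by omega)
  have sub : ∀ P : ℕ → Prop, {k | ((qz G t p ω M u + 1) * ω ≤ k ∧ k < n) ∧ P k} ⊆
      {k | (σ 1 < k ∧ k < n) ∧ P k} := fun P k hk => ⟨⟨h1.1.2.trans_le hk.1.1, hk.1.2⟩, hk.2⟩
  have fin : ∀ P : ℕ → Prop, {k | (σ 1 < k ∧ k < n) ∧ P k}.Finite := fun P =>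
    (Set.finite_lt_nat n).subset fun k hk => hk.1.2
  rcases words hG h (s2 0 1 (by omega) (by omega)) h0.2 h1.2 with h3 | h3
  · exact Or.inl ⟨hq, (Set.ncard_le_ncard (sub _) (fin _)).trans h3⟩
  · exact Or.inr ⟨hq, (Set.ncard_le_ncard (sub _) (fin _)).trans h3⟩

theorem KL.zone (hM : M * ω ≤ n) (h : KL G n t p ω M u) {d : ℕ} (h1 : qz G t p ω M u < d)
    (hd : d < M) : {k | k ∈ zn ω d ∧ ¬ LL G t p u k}.ncard ≤ 7 := by
  refine (Set.ncard_le_ncard ?_ ((Set.finite_lt_nat n).subset fun k hk => hk.1.2)).trans h.2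
  rintro k ⟨h2, h3⟩
  exact ⟨⟨(Nat.mul_le_mul_right ω h1).trans h2.1, zn_lt hM hd h2⟩, h3⟩

theorem KH.zone (hM : M * ω ≤ n) (h : KH G n t p ω M u) {d : ℕ} (h1 : qz G t p ω M u < d)
    (hd : d < M) : {k | k ∈ zn ω d ∧ ¬ LH G t p u k}.ncard ≤ 7 := by
  refine (Set.ncard_le_ncard ?_ ((Set.finite_lt_nat n).subset fun k hk => hk.1.2)).trans h.2
  rintro k ⟨h2, h3⟩
  exact ⟨⟨(Nat.mul_le_mul_right ω h1).trans h2.1, zn_lt hM hd h2⟩, h3⟩

/-- the classes exclude each other -/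
theorem not_KL_KH (hM : M * ω ≤ n) (hω : 60 ≤ ω) (h : KL G n t p ω M u) (h' : KH G n t p ω M u)
    (hq : qz G t p ω M u + 1 < M) : False := by
  obtain ⟨σ, s1, -⟩ := pickG (m := 1) (zn_fin ω (qz G t p ω M u + 1))
    (bad_and (zn_fin _ _) (h.zone hM (Nat.lt_succ_self _) hq) (h'.zone hM (Nat.lt_succ_self _) hq))
    (by rw [zn_card]; omega)
  exact (s1 0 (by omega)).2.1.1 (s1 0 (by omega)).2.2.1

/-- (F2) -/
theorem adj_F2 (hG : SPF G Set.univ 6 r3) (h : Hg G n t p) (hM : M * ω ≤ n) (hω : 60 ≤ ω)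
    (hu : KH G n t p ω M u) (huv : qz G t p ω M u + 2 ≤ qz G t p ω M v) : G.Adj u v := by
  have hq : qz G t p ω M u + 1 < M := lt_of_lt_of_le (by omega) (qz_le : qz G t p ω M v ≤ M)
  obtain ⟨σ, s1, s2⟩ := pickG (m := 3) (zn_fin ω (qz G t p ω M u + 1))
    (bad_and (zn_fin _ _) (hu.zone hM (Nat.lt_succ_self _) hq)
      (qz_low (G := G) (t := t) (p := p) (ω := ω) (M := M) (u := v) (d := qz G t p ω M u + 1) (by omega)))
    (by rw [zn_card]; omega)
  obtain ⟨z0, a0, b0⟩ := s1 0 (by omega)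
  obtain ⟨z1, a1, b1⟩ := s1 1 (by omega)
  obtain ⟨z2, a2, b2⟩ := s1 2 (by omega)
  exact adjHU hG h (s2 0 1 (by omega) (by omega)) (s2 1 2 (by omega) (by omega)) (zn_lt hM hq z2)
    a0 a1 a2 b0 b1 b2

/-! ### the vertices of the half graph -/

theorem t_LU (h : Hg G n t p) {i k : ℕ} (hi : i < n) (hki : k < i) : LU G t p (t i) k :=
  ⟨h.tt i hi k (by omega) (by omega), fun h1 => absurd ((h.tp i hi k (by omega)).1 h1) (by omega)⟩

theorem t_LH (h : Hg G n t p) {i k : ℕ} (hik : i < k) (hk : k < n) : LH G t p (t i) k :=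
  ⟨h.tt i (by omega) k hk (by omega), (h.tp i (by omega) k hk).2 hik.le⟩

theorem p_LU (h : Hg G n t p) {i k : ℕ} (hi : i < n) (hki : k ≤ i) : LU G t p (p i) k :=
  ⟨((h.tp k (by omega) i hi).2 hki).symm, h.pp i hi k (by omega)⟩

theorem p_LL (h : Hg G n t p) {i k : ℕ} (hik : i < k) (hk : k < n) : LL G t p (p i) k :=
  ⟨fun h1 => absurd ((h.tp k hk i (by omega)).1 h1.symm) (by omega), h.pp i (by omega) k hk⟩

private theorem empty_card {S : Set ℕ} (h : ∀ k, k ∉ S) : S.ncard = 0 := by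
  have h1 : S = ∅ := Set.eq_empty_iff_forall_notMem.2 h
  rw [h1, Set.ncard_empty]

theorem le_qt (h : Hg G n t p) {i e : ℕ} (hi : i < n) (he : e ≤ M) (hei : e * ω ≤ i) :
    e ≤ qz G t p ω M (t i) := by
  refine le_qz_of he fun d hd => ?_
  rw [empty_card]
  · omega
  · rintro k ⟨h1, h2⟩
    have h3 : (d + 1) * ω ≤ e * ω := Nat.mul_le_mul_right _ hd
    have h4 := h1.2
    exact h2 (t_LU h hi (by omega))

theorem le_qp (h : Hg G n t p) {i e : ℕ} (hi : i < n) (he : e ≤ M) (hei : e * ω ≤ i) :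
    e ≤ qz G t p ω M (p i) := by
  refine le_qz_of he fun d hd => ?_
  rw [empty_card]
  · omega
  · rintro k ⟨h1, h2⟩
    have h3 : (d + 1) * ω ≤ e * ω := Nat.mul_le_mul_right _ hd
    have h4 := h1.2
    exact h2 (p_LU h hi (by omega))

theorem qt_le (h : Hg G n t p) (hM : M * ω ≤ n) (hω : 60 ≤ ω) {i d : ℕ} (hi : i < (d + 1) * ω)
    (hd : d + 1 < M) : qz G t p ω M (t i) ≤ d + 1 := by
  refine qz_le_of ?_
  have h1 : {k | k ∈ zn ω (d + 1) ∧ ¬ LU G t p (t i) k} = zn ω (d + 1) := by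
    ext k
    constructor
    · exact fun h1 => h1.1
    · intro h1
      have h2 := h1.1
      exact ⟨h1, fun h3 => h3.2 (t_LH h (by omega) (zn_lt hM hd h1)).2⟩
  rw [h1, zn_card]
  omega

theorem qp_le (h : Hg G n t p) (hM : M * ω ≤ n) (hω : 60 ≤ ω) {i d : ℕ} (hi : i < (d + 1) * ω)
    (hd : d + 1 < M) : qz G t p ω M (p i) ≤ d + 1 := by
  refine qz_le_of ?_
  have h1 : {k | k ∈ zn ω (d + 1) ∧ ¬ LU G t p (p i) k} = zn ω (d + 1) := by
    ext k
    constructor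
    · exact fun h1 => h1.1
    · intro h1
      have h2 := h1.1
      exact ⟨h1, fun h3 => (p_LL h (by omega) (zn_lt hM hd h1)).1 h3.1⟩
  rw [h1, zn_card]
  omega

/-- if `u` has only letters `LU` below `i` then `i < (qz u + 1) * ω`, if `qz u < M` -/
theorem lt_of_LU {i : ℕ} (hq : qz G t p ω M u < M) (hu : ∀ k, k < i → LU G t p u k) :
    i < (qz G t p ω M u + 1) * ω := by
  by_contra hc
  push Not at hc
  have h1 := qz_two hq
  rw [empty_card] at h1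
  · omega
  · rintro k ⟨h2, h3⟩
    have h4 := h2.2
    exact h3 (hu k (by omega))

theorem KH_t (h : Hg G n t p) {i : ℕ} (hi : i < n) (hq : qz G t p ω M (t i) < M) :
    KH G n t p ω M (t i) := by
  refine ⟨hq, ?_⟩
  rw [empty_card]
  · omega
  · rintro k ⟨⟨h1, h2⟩, h3⟩
    have h4 := lt_of_LU hq fun k hk => t_LU h hi hk
    exact h3 (t_LH h (by omega) h2)

theorem KL_p (h : Hg G n t p) {i : ℕ} (hi : i < n) (hq : qz G t p ω M (p i) < M) :
    KL G n t p ω M (p i) := by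
  refine ⟨hq, ?_⟩
  rw [empty_card]
  · omega
  · rintro k ⟨⟨h1, h2⟩, h3⟩
    have h4 := lt_of_LU hq fun k hk => p_LU h hi hk.le
    exact h3 (p_LL h (by omega) h2)

end Pool.Agent.MPd439b2.X3.H3B
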